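import Pool.Agent.Lib.K5W.M8b

/-!
# K5W.M8s: splitting a branch set of a `V_8` model gives `K_5`

`split`: after `M8.rot` `i = 0`, the three neighbours are `1, 4, 7`.  For distinct neighbours
`x, y, z` with `X x ~ Y ~ X y ~ Z ~ X z`; exchange of `Y, Z` exchanges `x` and `z`.  With the family
of 9 sets `Y, X 1, ..., X 7, Z` (indices `0, ..., 7, 8`; `Y ~ Z` by `Bip.tch`) and the list of the
nine edges of `V_8` inside `1, ..., 7` and the five new edges, `k5_q` applies with the classes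
* `(x, y, z) = (1, 4, 7)`: `{0, 1}, {2, 3}, {4}, {5, 6}, {7, 8}`;
* `(x, y, z) = (1, 7, 4)`: `{0, 1}, {2, 3}, {4, 8}, {5, 6}, {7}`;
* `(x, y, z) = (4, 1, 7)`: `{0, 4}, {1}, {2, 3}, {5, 6}, {7, 8}`.
`split'`: two contacts `a ≠ b` of `Y` and two contacts `c ≠ d` of `Z`; every neighbour of `i` touches
`X i`, so it touches `Y` or `Z` (`Bip.tch_iff`); hence there are `x, y, z` as in `split`.
-/

namespace K5W

open Finset P512

variable {V : Type*} [DecidableEq V] {G : SimpleGraph V}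

namespace M8sAux

/-- The family `Y, X 1, ..., X 7, Z`. -/
def fam (X : Fin 8 → Finset V) (Y Z : Finset V) : Fin 9 → Finset V :=
  ![Y, X 1, X 2, X 3, X 4, X 5, X 6, X 7, Z]

/-- The index of the set of the model that contains the member. -/
def par : Fin 9 → Fin 8 := ![0, 1, 2, 3, 4, 5, 6, 7, 0]

/-- The nine edges of `V_8` inside `1, ..., 7` and the five new edges. -/
def lst (x y z : Fin 9) : List (Fin 9 × Fin 9) :=
  [(1, 2), (2, 3), (3, 4), (4, 5), (5, 6), (6, 7), (1, 5), (2, 6), (3, 7), (0, 8), (x, 0), (y, 0),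
    (y, 8), (z, 8)]

theorem par_dec : ∀ i j : Fin 9, i ≠ j → par i ≠ par j ∨ (i = 0 ∧ j = 8) ∨ (i = 8 ∧ j = 0) := by
  decide

theorem main {U : Finset V} {X : Fin 8 → Finset V} (h : M8 G U X) {Y Z : Finset V}
    (hb : Bip G (X 0) Y Z) (x y z : Fin 9)
    (h1 : Tch G (fam X Y Z x) Y) (h2 : Tch G (fam X Y Z y) Y) (h3 : Tch G (fam X Y Z y) Z)
    (h4 : Tch G (fam X Y Z z) Z) (p : Fin 5 → Fin 9 × Fin 9) (hp : Good (rel (lst x y z)) p) :
    K5 G := by
  have hsub : ∀ j, fam X Y Z j ⊆ X (par j) := by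
    intro j
    fin_cases j
    · exact hb.subY
    · exact le_rfl
    · exact le_rfl
    · exact le_rfl
    · exact le_rfl
    · exact le_rfl
    · exact le_rfl
    · exact le_rfl
    · exact hb.subZ
  refine k5_q (fam X Y Z) ?_ ?_ (rel (lst x y z)) (rel_tch ?_) p hp
  · intro j
    fin_cases j
    · exact hb.cY
    · exact h.conn 1
    · exact h.conn 2
    · exact h.conn 3
    · exact h.conn 4
    · exact h.conn 5
    · exact h.conn 6
    · exact h.conn 7
    · exact hb.cZ
  · intro i j hij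
    rcases par_dec i j hij with h' | ⟨rfl, rfl⟩ | ⟨rfl, rfl⟩
    · exact Disjoint.mono (hsub i) (hsub j) (h.dj _ _ h')
    · exact hb.dj
    · exact hb.dj.symm
  · have e : ∀ a b : Fin 8, v8 a b = true → Tch G (X a) (X b) := h.adj
    simp only [lst, List.forall_mem_cons]
    refine ⟨e 1 2 (by decide), e 2 3 (by decide), e 3 4 (by decide), e 4 5 (by decide),
      e 5 6 (by decide), e 6 7 (by decide), e 1 5 (by decide), e 2 6 (by decide),
      e 3 7 (by decide), hb.tch (h.conn 0), h1, h2, h3, h4, ?_⟩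
    intro _ hh
    exact absurd hh (List.not_mem_nil)

theorem nb0 : ∀ x : Fin 8, v8 0 x = true → x = 1 ∨ x = 4 ∨ x = 7 := by decide

theorem split0 {U : Finset V} {X : Fin 8 → Finset V} (h : M8 G U X)
    {Y Z : Finset V} (hb : Bip G (X 0) Y Z) {x y z : Fin 8} (hx : v8 0 x = true)
    (hy : v8 0 y = true) (hz : v8 0 z = true) (hxy : x ≠ y) (hxz : x ≠ z) (hyz : y ≠ z)
    (h1 : Tch G (X x) Y) (h2 : Tch G (X y) Y) (h3 : Tch G (X y) Z) (h4 : Tch G (X z) Z) :
    K5 G := by
  rcases nb0 x hx with rfl | rfl | rfl <;> rcases nb0 y hy with rfl | rfl | rfl <;>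
    rcases nb0 z hz with rfl | rfl | rfl <;>
    (first | exact absurd rfl hxy | exact absurd rfl hxz | exact absurd rfl hyz | skip)
  · exact main h hb 1 4 7 h1 h2 h3 h4 ![(1, 0), (2, 3), (4, 4), (5, 6), (7, 8)] (by decide)
  · exact main h hb 1 7 4 h1 h2 h3 h4 ![(1, 0), (2, 3), (4, 8), (5, 6), (7, 7)] (by decide)
  · exact main h hb 4 1 7 h1 h2 h3 h4 ![(4, 0), (1, 1), (2, 3), (5, 6), (7, 8)] (by decide)
  · exact main h hb.symm 1 7 4 h4 h3 h2 h1 ![(1, 0), (2, 3), (4, 8), (5, 6), (7, 7)] (by decide)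
  · exact main h hb.symm 4 1 7 h4 h3 h2 h1 ![(4, 0), (1, 1), (2, 3), (5, 6), (7, 8)] (by decide)
  · exact main h hb.symm 1 4 7 h4 h3 h2 h1 ![(1, 0), (2, 3), (4, 4), (5, 6), (7, 8)] (by decide)

theorem third : ∀ i a b : Fin 8, v8 i a = true → v8 i b = true → a ≠ b →
    ∃ e, v8 i e = true ∧ e ≠ a ∧ e ≠ b ∧ ∀ c, v8 i c = true → c = a ∨ c = b ∨ c = e := by
  decide

theorem v8_sub : ∀ i a : Fin 8, v8 i a = true → v8 0 (a - i) = true := by decide

end M8sAux

theorem split {U : Finset V} {X : Fin 8 → Finset V} (h : M8 G U X) {i : Fin 8}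
    {Y Z : Finset V} (hb : Bip G (X i) Y Z) {x y z : Fin 8} (hx : v8 i x = true)
    (hy : v8 i y = true) (hz : v8 i z = true) (hxy : x ≠ y) (hxz : x ≠ z) (hyz : y ≠ z)
    (h1 : Tch G (X x) Y) (h2 : Tch G (X y) Y) (h3 : Tch G (X y) Z) (h4 : Tch G (X z) Z) :
    K5 G := by
  have h' := h.rot i
  have e : ∀ a : Fin 8, X (a - i + i) = X a := fun a => by rw [sub_add_cancel]
  have e0 : X (0 + i) = X i := by rw [zero_add]
  refine M8sAux.split0 (x := x - i) (y := y - i) (z := z - i) (Y := Y) (Z := Z) h' ?_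
    (M8sAux.v8_sub i x hx) (M8sAux.v8_sub i y hy) (M8sAux.v8_sub i z hz)
    (fun hh => hxy (sub_left_injective hh)) (fun hh => hxz (sub_left_injective hh))
    (fun hh => hyz (sub_left_injective hh)) ?_ ?_ ?_ ?_
  · show Bip G (X (0 + i)) Y Z
    rw [e0]
    exact hb
  · show Tch G (X (x - i + i)) Y
    rw [e]
    exact h1
  · show Tch G (X (y - i + i)) Y
    rw [e]
    exact h2
  · show Tch G (X (y - i + i)) Z
    rw [e]
    exact h3
  · show Tch G (X (z - i + i)) Z
    rw [e]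
    exact h4

theorem split' {U : Finset V} {X : Fin 8 → Finset V} (h : M8 G U X) {i : Fin 8}
    {Y Z : Finset V} (hb : Bip G (X i) Y Z) {a b c d : Fin 8} (ha : v8 i a = true)
    (hb' : v8 i b = true) (hc : v8 i c = true) (hd : v8 i d = true) (hab : a ≠ b) (hcd : c ≠ d)
    (h1 : Tch G (X a) Y) (h2 : Tch G (X b) Y) (h3 : Tch G (X c) Z) (h4 : Tch G (X d) Z) :
    K5 G := by
  obtain ⟨e, he, hea, heb, hall⟩ := M8sAux.third i a b ha hb' hab
  have hte : Tch G (X e) Y ∨ Tch G (X e) Z := hb.tch_iff.1 (h.adj i e he).symm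
  rcases hall c hc with rfl | rfl | rfl
  · rcases hall d hd with rfl | rfl | rfl
    · exact absurd rfl hcd
    · rcases hte with ht | ht
      · exact split h hb he hc hd hea heb hab ht h1 h3 h4
      · exact split h hb hc hd he hab hea.symm heb.symm h1 h2 h4 ht
    · exact split h hb hb' hc hd hab.symm heb.symm hcd h2 h1 h3 h4
  · rcases hall d hd with rfl | rfl | rfl
    · rcases hte with ht | ht
      · exact split h hb he hc hd heb hea hab.symm ht h2 h3 h4
      · exact split h hb hc hd he hcd heb.symm hea.symm h2 h1 h4 ht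
    · exact absurd rfl hcd
    · exact split h hb ha hc hd hab hea.symm hcd h1 h2 h3 h4
  · rcases hall d hd with rfl | rfl | rfl
    · exact split h hb hb' hd hc hab.symm heb.symm hea.symm h2 h1 h4 h3
    · exact split h hb ha hd hc hab hea.symm hcd.symm h1 h2 h4 h3
    · exact absurd rfl hcd

end K5W
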