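import Pool.Agent.Lib.K5W.Thr
import Pool.Agent.Lib.K5W.M8s

/-!
# K5W.LastC: the last branch set

`X i` is a single vertex for `i < 7` and `W = X 7` has at least two vertices.  The neighbours of `7`
are `0, 3, 6`.

`two_low`: let `D ⊆ W.erase v` be nonempty and closed under adjacency in `W.erase v`.  By `nbr` the
neighbours of `D` in `U` are in `D`, equal to `v`, or in one of `X 0, X 3, X 6`.  If `D` touches at
most one of these three single vertices then `Thr.sep` with `S = {v}` or `S = {v} ∪ X a`, and `w` in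
`X 1`, gives a contradiction.  So `D` touches `X a` and `X b` for two neighbours `a ≠ b` of `7`.

`last_conn`: let `D` be the component of a vertex of `W.erase v` (`exists_comp`).  If
`D ≠ W.erase v`, then `D' = (W.erase v) \ D` is nonempty and closed under adjacency in
`W.erase v` as well.  `D` and `D'` both touch two neighbours (`two_low`), `Bip G W D (W \ D)` by
`bip_comp` (`v ∈ W`) and `D' ⊆ W \ D`: `split'` gives `K5`.

`last_three`: if `W = {v, w}`, then `{w}` is closed in `W.erase v` and `{v}` is closed in `W.erase w`;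
both touch two neighbours (`two_low`), and `Bip G W {v} {w}`: `split'` gives `K5`.
-/

namespace K5W

open Finset P512

variable {V : Type*} [DecidableEq V] {G : SimpleGraph V}

theorem two_low {U : Finset V} (h3 : Thr G U) (h5 : ¬ K5 G) {X : Fin 8 → Finset V}
    (h : M8 G U X) (h1 : ∀ i, i < 7 → (X i).card = 1) {v : V} (hv : v ∈ X 7) {D : Finset V}
    (hD : D.Nonempty) (hDW : D ⊆ (X 7).erase v)
    (hc : ∀ u ∈ D, ∀ w ∈ (X 7).erase v, G.Adj u w → w ∈ D) :
    ∃ a b : Fin 8, a ≠ b ∧ v8 7 a = true ∧ v8 7 b = true ∧ Tch G (X a) D ∧ Tch G (X b) D := by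
  classical
  by_contra hcon
  have hD7 : ∀ u ∈ D, u ∈ X 7 := fun u hu => Finset.mem_of_mem_erase (hDW hu)
  let N : Finset (Fin 8) := Finset.univ.filter (fun a => v8 7 a = true ∧ Tch G (X a) D)
  have hN : N.card ≤ 1 := by
    rw [Finset.card_le_one]
    intro a ha b hb
    by_contra hab
    have ha' := (Finset.mem_filter.1 ha).2
    have hb' := (Finset.mem_filter.1 hb).2
    exact hcon ⟨a, b, hab, ha'.1, hb'.1, ha'.2, hb'.2⟩
  have hv7 : ∀ a : Fin 8, v8 7 a = true → a < 7 ∧ a ≠ 7 ∧ a ≠ 1 := by decide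
  have hS : (insert v (N.biUnion X)).card ≤ 2 := by
    refine (Finset.card_insert_le _ _).trans ?_
    have : (N.biUnion X).card ≤ N.card * 1 := by
      refine Finset.card_biUnion_le_card_mul _ _ _ (fun a ha => ?_)
      have ha' := (Finset.mem_filter.1 ha).2
      exact (h1 a (hv7 a ha'.1).1).le
    omega
  obtain ⟨w, hw⟩ := (h.conn 1).1
  have hd17 : w ∉ X 7 := Finset.disjoint_left.1 (h.dj 1 7 (by decide)) hw
  refine h3.sep (D := D) (S := insert v (N.biUnion X)) (w := w) hS hD
    (fun u hu => (h.cov u).2 ⟨7, hD7 u hu⟩) ?_ ?_ ((h.cov w).2 ⟨1, hw⟩)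
    (fun hwD => hd17 (hD7 w hwD)) ?_
  · rw [Finset.disjoint_left]
    intro u hu huS
    rcases Finset.mem_insert.1 huS with e | huS
    · exact (Finset.mem_erase.1 (hDW hu)).1 e
    · obtain ⟨a, ha, hua⟩ := Finset.mem_biUnion.1 huS
      have ha' := (Finset.mem_filter.1 ha).2
      exact Finset.disjoint_left.1 (h.dj a 7 (hv7 a ha'.1).2.1) hua (hD7 u hu)
  · intro u hu x hx hux
    rcases nbr h5 h (hD7 u hu) hx hux with h7 | ⟨j, hj, hxj⟩
    · by_cases hxv : x = v
      · exact Or.inr (Finset.mem_insert.2 (Or.inl hxv))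
      · exact Or.inl (hc u hu x (Finset.mem_erase.2 ⟨hxv, h7⟩) hux)
    · exact Or.inr (Finset.mem_insert.2 (Or.inr (Finset.mem_biUnion.2 ⟨j,
        Finset.mem_filter.2 ⟨Finset.mem_univ _, hj, x, hxj, u, hu, hux.symm⟩, hxj⟩)))
  · intro hwS
    rcases Finset.mem_insert.1 hwS with e | hwS
    · exact hd17 (e ▸ hv)
    · obtain ⟨a, ha, hwa⟩ := Finset.mem_biUnion.1 hwS
      have ha' := (Finset.mem_filter.1 ha).2
      exact Finset.disjoint_left.1 (h.dj a 1 (hv7 a ha'.1).2.2) hwa hw

theorem last_conn {U : Finset V} (h3 : Thr G U) (h5 : ¬ K5 G) {X : Fin 8 → Finset V}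
    (h : M8 G U X) (h1 : ∀ i, i < 7 → (X i).card = 1) (h2 : 2 ≤ (X 7).card) {v : V}
    (hv : v ∈ X 7) : Conn G ((X 7).erase v) := by
  classical
  have hne : ((X 7).erase v).Nonempty := by
    rw [← Finset.card_pos, Finset.card_erase_of_mem hv]; omega
  obtain ⟨x, hx⟩ := hne
  obtain ⟨K, hxK, hK, cK, hcl⟩ := exists_comp (G := G) hx
  by_cases hKe : K = (X 7).erase v
  · rw [← hKe]; exact cK
  · exfalso
    have hb := bip_comp (h.conn 7) hv hK cK hcl
    obtain ⟨a, b, hab, ha, hb', ta, tb⟩ := two_low h3 h5 h h1 hv ⟨x, hxK⟩ hK hcl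
    have hne' : ((X 7).erase v \ K).Nonempty := by
      rw [Finset.sdiff_nonempty]
      intro hsub
      exact hKe (Finset.Subset.antisymm hK hsub)
    obtain ⟨c, d, hcd, hc, hd, tc, td⟩ := two_low h3 h5 h h1 hv hne' Finset.sdiff_subset
      (fun u hu w hw huw => Finset.mem_sdiff.2 ⟨hw, fun hwK =>
        (Finset.mem_sdiff.1 hu).2 (hcl w hwK u (Finset.mem_sdiff.1 hu).1 huw.symm)⟩)
    have hsub : (X 7).erase v \ K ⊆ X 7 \ K :=
      Finset.sdiff_subset_sdiff (Finset.erase_subset _ _) le_rfl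
    exact h5 (split' h hb ha hb' hc hd hab hcd ta tb (tc.of_subset_right hsub)
      (td.of_subset_right hsub))

theorem last_three {U : Finset V} (h3 : Thr G U) (h5 : ¬ K5 G) {X : Fin 8 → Finset V}
    (h : M8 G U X) (h1 : ∀ i, i < 7 → (X i).card = 1) (h2 : 2 ≤ (X 7).card) :
    3 ≤ (X 7).card := by
  classical
  by_contra hlt
  have hc2 : (X 7).card = 2 := by omega
  obtain ⟨v, w, hvw, hX⟩ := Finset.card_eq_two.1 hc2
  have hv : v ∈ X 7 := by rw [hX]; simp
  have hw : w ∈ X 7 := by rw [hX]; simp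
  have e1 : (X 7).erase v = {w} := by
    rw [hX]; ext x; simp only [Finset.mem_erase, Finset.mem_insert, Finset.mem_singleton]
    constructor
    · rintro ⟨h1, h2 | h2⟩
      · exact absurd h2 h1
      · exact h2
    · rintro rfl
      exact ⟨fun e => hvw e.symm, Or.inr rfl⟩
  have e2 : (X 7).erase w = {v} := by
    rw [hX]; ext x; simp only [Finset.mem_erase, Finset.mem_insert, Finset.mem_singleton]
    constructor
    · rintro ⟨h1, h2 | h2⟩
      · exact h2
      · exact absurd h2 h1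
    · rintro rfl
      exact ⟨hvw, Or.inl rfl⟩
  have hb : Bip G (X 7) {w} {v} := by
    refine ⟨conn_singleton G w, conn_singleton G v, ?_, ?_⟩
    · rw [Finset.disjoint_singleton]; exact fun e => hvw e.symm
    · rw [hX]; ext x; simp [or_comm]
  obtain ⟨a, b, hab, ha, hb', ta, tb⟩ := two_low h3 h5 h h1 hv (D := {w})
    (Finset.singleton_nonempty w) (by rw [e1]) (fun u _ x hx _ => by rw [e1] at hx; exact hx)
  obtain ⟨c, d, hcd, hc, hd, tc, td⟩ := two_low h3 h5 h h1 hw (D := {v})
    (Finset.singleton_nonempty v) (by rw [e2]) (fun u _ x hx _ => by rw [e2] at hx; exact hx)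
  exact h5 (split' h hb ha hb' hc hd hab hcd ta tb tc td)

end K5W
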