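import Pool.Agent.Lib.K5W.M8b

/-!
# K5W.LastK: three pairwise touching parts of the last branch set give `K_5`

`k5_q` for the family of 10 sets `X 0, ..., X 6, S 0, S 1, S 2` (indices `0, ..., 9`) with the classes
`{0, 7}, {3, 8}, {1, 2}, {4, 5}, {6, 9}` and the edges `X 0 ~ S 0`, `X 3 ~ S 1`, `X 6 ~ S 2`,
`S i ~ S j`, and those of `V_8` between `0, ..., 6`.
-/

namespace K5W

open Finset P512

variable {V : Type*} [DecidableEq V] {G : SimpleGraph V}

namespace LastKAux

/-- The family of ten sets. -/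
def Fam (X : Fin 8 → Finset V) (S : Fin 3 → Finset V) : Fin 7 ⊕ Fin 3 → Finset V
  | Sum.inl i => X (Fin.castSucc i)
  | Sum.inr j => S j

/-- The index map. -/
def ix (a : Fin 10) : Fin 7 ⊕ Fin 3 := (finSumFinEquiv (m := 7) (n := 3)).symm a

/-- The edges used. -/
def Rl : Fin 7 ⊕ Fin 3 → Fin 7 ⊕ Fin 3 → Bool
  | Sum.inl i, Sum.inl j => v8 (Fin.castSucc i) (Fin.castSucc j)
  | Sum.inl i, Sum.inr j => (i == 0 && j == 0) || (i == 3 && j == 1) || (i == 6 && j == 2)
  | Sum.inr _, Sum.inl _ => false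
  | Sum.inr i, Sum.inr j => i != j

end LastKAux

open LastKAux in
/-- Three pairwise touching parts of `X 7` attached at `0, 3, 6` give a chord. -/
theorem last_k5 {U : Finset V} {X : Fin 8 → Finset V} (h : M8 G U X) {S : Fin 3 → Finset V}
    (cS : ∀ i, Conn G (S i)) (dS : ∀ i j, i ≠ j → Disjoint (S i) (S j))
    (uS : ∀ v, v ∈ X 7 ↔ ∃ i, v ∈ S i) (tS : ∀ i j, i ≠ j → Tch G (S i) (S j))
    (t0 : Tch G (X 0) (S 0)) (t3 : Tch G (X 3) (S 1)) (t6 : Tch G (X 6) (S 2)) : K5 G := by
  have hsub : ∀ j, S j ⊆ X 7 := fun j v hv => (uS v).2 ⟨j, hv⟩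
  have h7 : ∀ i : Fin 7, (Fin.castSucc i : Fin 8) ≠ 7 := by decide
  refine k5_q (n := 10) (fun a => Fam X S (ix a)) ?_ ?_ (fun a b => Rl (ix a) (ix b)) ?_
    ![(0, 7), (3, 8), (1, 2), (4, 5), (6, 9)] (by decide)
  · intro a
    generalize ix a = c
    rcases c with i | j
    · exact h.conn _
    · exact cS j
  · intro a b hab
    have hne : ix a ≠ ix b := fun e => hab ((finSumFinEquiv (m := 7) (n := 3)).symm.injective e)
    revert hne
    generalize ix a = c
    generalize ix b = d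
    intro hne
    rcases c with i | i <;> rcases d with j | j
    · refine h.dj _ _ (fun e => hne ?_)
      rw [Fin.castSucc_injective _ e]
    · exact (h.dj _ _ (h7 i)).mono_right (hsub j)
    · exact ((h.dj _ _ (h7 j)).mono_right (hsub i)).symm
    · exact dS _ _ (fun e => hne (by rw [e]))
  · intro a b
    generalize ix a = c
    generalize ix b = d
    intro hR
    rcases c with i | i <;> rcases d with j | j
    · exact h.adj _ _ hR
    · simp only [Rl, Bool.or_eq_true, Bool.and_eq_true, beq_iff_eq] at hR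
      rcases hR with (⟨rfl, rfl⟩ | ⟨rfl, rfl⟩) | ⟨rfl, rfl⟩
      · exact t0
      · exact t3
      · exact t6
    · simp [Rl] at hR
    · simp only [Rl, bne_iff_ne, ne_eq] at hR
      exact tS _ _ hR

end K5W
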