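import Pool.Agent.Lib.K5W.Ext

/-!
# K5W.RK3: a rooted triangle in a 2-connected set

Proof.  By `extend` (with `X i = {r i}`) there is a partition `S` of `W` into connected sets with
`r i ∈ S i`.  As `W` is connected, some `S m` touches both others (cut form of connectedness for
`P = S 0`, then for the union of two of them).  Among all pairs `(S, m)` with: `r i ∈ S i`, `S i`
connected, disjoint, covering `W`, and `S m` touching `S j` for all `j ≠ m`, take one with `#(S m)`
minimal (strong induction).  Let `a, c` be the two indices `≠ m`.  If `S a ~ S c` we are done.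
Suppose not.
(1) Let `Bip G (S m) K M` with `r m ∈ M`.  If `K ~ S a`: put `S' = update (update S a (S a ∪ K)) m M`.
    If `M ~ S c` then `(S', m)` is again a valid pair (`M ~ S a ∪ K` because `M ~ K`, `Bip.tch`) with
    `#M < #(S m)`: contradiction.  So `M ≁ S c`, and `K ~ S c` as `S m ~ S c`.  By the same argument
    with `a, c` exchanged, `M ≁ S a`.  So: either `K` touches neither `S a` nor `S c`, or `M` touches
    neither.
(2) `sink` with `p v := ∀ j, j ≠ m → ¬ Tch G (S j) {v}` gives `r0 ∈ S m` such that no `v ∈ S m`,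
    `v ≠ r0` touches `S a` or `S c` (in a `Bip G (S m) Y Z` the root `r m` lies in `Y` or in `Z`).
(3) `W.erase r0` is connected (`h2`), but `S a` is a nonempty subset of it with no edge to the rest
    (`S a ≁ S c`, and no `v ∈ S m`, `v ≠ r0`, touches `S a`), and `S c` is outside.  Contradiction.
-/

namespace K5W

open Finset P512

variable {V : Type*} [DecidableEq V] {G : SimpleGraph V}

namespace RK3Aux

/-- A partition of `W` into three connected sets with roots, the first of which touches the two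
others. -/
structure Good (G : SimpleGraph V) (W : Finset V) (rm ra rc : V) (M A C : Finset V) : Prop where
  hm : rm ∈ M
  ha : ra ∈ A
  hc : rc ∈ C
  cM : Conn G M
  cA : Conn G A
  cC : Conn G C
  dMA : Disjoint M A
  dMC : Disjoint M C
  dAC : Disjoint A C
  cov : ∀ v, v ∈ W ↔ v ∈ M ∨ v ∈ A ∨ v ∈ C
  tMA : Tch G M A
  tMC : Tch G M C

theorem Good.swap {W : Finset V} {rm ra rc : V} {M A C : Finset V}
    (h : Good G W rm ra rc M A C) : Good G W rm rc ra M C A :=
  ⟨h.hm, h.hc, h.ha, h.cM, h.cC, h.cA, h.dMC, h.dMA, h.dAC.symm,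
    fun v => by rw [h.cov v]; tauto, h.tMC, h.tMA⟩

/-- moving a part of `M` to `A` -/
theorem Good.move {W : Finset V} {rm ra rc : V} {M A C K N : Finset V}
    (h : Good G W rm ra rc M A C) (hb : Bip G M K N) (hr : rm ∈ N) (hKA : Tch G K A)
    (hNC : Tch G N C) : Good G W rm ra rc N (A ∪ K) C ∧ N.card < M.card := by
  refine ⟨⟨hr, Finset.mem_union_left _ h.ha, h.hc, hb.cZ, conn_un h.cA hb.cY hKA.symm, h.cC,
    ?_, h.dMC.mono_left hb.subZ, ?_, ?_, ?_, hNC⟩, ?_⟩
  · exact Finset.disjoint_union_right.2 ⟨h.dMA.mono_left hb.subZ, hb.dj.symm⟩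
  · exact Finset.disjoint_union_left.2 ⟨h.dAC, h.dMC.mono_left hb.subY⟩
  · intro v
    rw [h.cov v, ← hb.un, Finset.mem_union, Finset.mem_union]
    tauto
  · exact tch_union_right.2 (Or.inr (hb.tch h.cM).symm)
  · have h1 := hb.card
    have h2 := hb.cY.1.card_pos
    omega

theorem core {W : Finset V} (h2 : ∀ v ∈ W, Conn G (W.erase v)) {rm ra rc : V} (n : ℕ) :
    ∀ M A C : Finset V, M.card = n → Good G W rm ra rc M A C →
      ∃ M' A' C', Good G W rm ra rc M' A' C' ∧ Tch G A' C' := by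
  induction n using Nat.strong_induction_on with
  | _ n ih =>
    intro M A C hn hg
    by_contra hcon
    have hAC : ¬ Tch G A C := fun h => hcon ⟨M, A, C, hg, h⟩
    -- the moves are impossible
    have mvA : ∀ K N, Bip G M K N → rm ∈ N → Tch G K A → ¬ Tch G N C := by
      intro K N hb hr hKA hNC
      obtain ⟨hg', hlt⟩ := hg.move hb hr hKA hNC
      exact hcon (ih N.card (hn ▸ hlt) N (A ∪ K) C rfl hg')
    have mvC : ∀ K N, Bip G M K N → rm ∈ N → Tch G K C → ¬ Tch G N A := by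
      intro K N hb hr hKC hNA
      obtain ⟨hg', hlt⟩ := hg.swap.move hb hr hKC hNA
      exact hcon (ih N.card (hn ▸ hlt) N A (C ∪ K) rfl hg'.swap)
    let p : V → Prop := fun v => ¬ Tch G A {v} ∧ ¬ Tch G C {v}
    have hp : ∀ X : Finset V, ¬ Tch G A X → ¬ Tch G C X → ∀ v ∈ X, p v := by
      intro X h1 h3 v hv
      have hs : ({v} : Finset V) ⊆ X := Finset.singleton_subset_iff.2 hv
      exact ⟨fun h => h1 (h.of_subset_right hs), fun h => h3 (h.of_subset_right hs)⟩
    have key : ∀ K N, Bip G M K N → rm ∈ N → (∀ v ∈ K, p v) ∨ ∀ v ∈ N, p v := by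
      intro K N hb hr
      by_cases hKA : Tch G K A
      · have hNC := mvA K N hb hr hKA
        have hKC : Tch G K C := by
          rcases (hb.tch_iff (R := C)).1 hg.tMC.symm with h | h
          · exact h.symm
          · exact (hNC h.symm).elim
        have hNA := mvC K N hb hr hKC
        exact Or.inr (hp N (fun h => hNA h.symm) (fun h => hNC h.symm))
      · have hNA : Tch G N A := by
          rcases (hb.tch_iff (R := A)).1 hg.tMA.symm with h | h
          · exact (hKA h.symm).elim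
          · exact h.symm
        have hKC : ¬ Tch G K C := fun h => mvC K N hb hr h hNA
        exact Or.inl (hp K (fun h => hKA h.symm) (fun h => hKC h.symm))
    obtain ⟨r0, hr0, hr0'⟩ := sink hg.cM p (by
      intro Y Z hb
      rcases hb.mem hg.hm with h | h
      · exact (key Z Y hb.symm h).symm
      · exact key Y Z hb h)
    have hr0W : r0 ∈ W := (hg.cov r0).2 (Or.inl hr0)
    have hAr0 : ∀ v ∈ A, v ≠ r0 := by
      rintro v hv rfl
      exact Finset.disjoint_left.1 hg.dMA hr0 hv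
    have hCr0 : ∀ v ∈ C, v ≠ r0 := by
      rintro v hv rfl
      exact Finset.disjoint_left.1 hg.dMC hr0 hv
    obtain ⟨u, hu, v, hv, hvn, e⟩ := (h2 r0 hr0W).2 A (by
      intro v hv
      exact Finset.mem_erase.2 ⟨hAr0 v hv, (hg.cov v).2 (Or.inr (Or.inl hv))⟩) ⟨ra, hg.ha⟩ (by
      intro he
      have h3 : rc ∈ W.erase r0 :=
        Finset.mem_erase.2 ⟨hCr0 rc hg.hc, (hg.cov rc).2 (Or.inr (Or.inr hg.hc))⟩
      rw [← he] at h3
      exact Finset.disjoint_left.1 hg.dAC h3 hg.hc)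
    rw [Finset.mem_erase] at hv
    rcases (hg.cov v).1 hv.2 with h | h | h
    · exact (hr0' v h hv.1).1 ⟨u, hu, v, Finset.mem_singleton_self v, e⟩
    · exact hvn h
    · exact hAC ⟨u, hu, v, h, e⟩

theorem fin {W : Finset V} {r : Fin 3 → V} {S0 S1 S2 : Finset V} (h0 : r 0 ∈ S0) (h1 : r 1 ∈ S1)
    (h2 : r 2 ∈ S2) (c0 : Conn G S0) (c1 : Conn G S1) (c2 : Conn G S2) (d01 : Disjoint S0 S1)
    (d02 : Disjoint S0 S2) (d12 : Disjoint S1 S2)
    (cov : ∀ v, v ∈ W ↔ v ∈ S0 ∨ v ∈ S1 ∨ v ∈ S2) (t01 : Tch G S0 S1) (t02 : Tch G S0 S2)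
    (t12 : Tch G S1 S2) :
    ∃ S : Fin 3 → Finset V, (∀ i, r i ∈ S i) ∧ (∀ i, Conn G (S i)) ∧
      (∀ i j, i ≠ j → Disjoint (S i) (S j)) ∧ (∀ v, v ∈ W ↔ ∃ i, v ∈ S i) ∧
      ∀ i j, i ≠ j → Tch G (S i) (S j) := by
  refine ⟨![S0, S1, S2], ?_, ?_, ?_, ?_, ?_⟩
  · intro i; fin_cases i
    · exact h0
    · exact h1
    · exact h2
  · intro i; fin_cases i
    · exact c0
    · exact c1
    · exact c2
  · intro i j hij; fin_cases i <;> fin_cases j
    · exact (hij rfl).elim
    · exact d01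
    · exact d02
    · exact d01.symm
    · exact (hij rfl).elim
    · exact d12
    · exact d02.symm
    · exact d12.symm
    · exact (hij rfl).elim
  · intro v
    rw [cov v, Fin.exists_fin_succ, Fin.exists_fin_succ, Fin.exists_fin_one]
    rfl
  · intro i j hij; fin_cases i <;> fin_cases j
    · exact (hij rfl).elim
    · exact t01
    · exact t02
    · exact t01.symm
    · exact (hij rfl).elim
    · exact t12
    · exact t02.symm
    · exact t12.symm
    · exact (hij rfl).elim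

end RK3Aux

open RK3Aux in
theorem rk3 {W : Finset V} (hW : Conn G W) (h2 : ∀ v ∈ W, Conn G (W.erase v)) (r : Fin 3 → V)
    (hr : ∀ i, r i ∈ W) (hinj : Function.Injective r) :
    ∃ S : Fin 3 → Finset V, (∀ i, r i ∈ S i) ∧ (∀ i, Conn G (S i)) ∧
      (∀ i j, i ≠ j → Disjoint (S i) (S j)) ∧ (∀ v, v ∈ W ↔ ∃ i, v ∈ S i) ∧
      ∀ i j, i ≠ j → Tch G (S i) (S j) := by
  classical
  obtain ⟨Y, hY1, hY2, hY3, hY4⟩ := extend hW (fun i : Fin 3 => {r i})
    (fun i => conn_singleton G (r i))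
    (fun i j hij => Finset.disjoint_singleton.2 (fun h => hij (hinj h)))
    (fun i => Finset.singleton_subset_iff.2 (hr i))
  have hrY : ∀ i, r i ∈ Y i := fun i => Finset.singleton_subset_iff.1 (hY1 i)
  have sub : ∀ i, Y i ⊆ W := fun i v hv => (hY4 v).2 ⟨i, hv⟩
  have d01 := hY3 0 1 (by decide)
  have d02 := hY3 0 2 (by decide)
  have d12 := hY3 1 2 (by decide)
  have cov : ∀ v, v ∈ W ↔ v ∈ Y 0 ∨ v ∈ Y 1 ∨ v ∈ Y 2 := by
    intro v
    rw [hY4 v, Fin.exists_fin_succ, Fin.exists_fin_succ, Fin.exists_fin_one]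
    rfl
  -- some `Y m` touches both others
  have a0 : Tch G (Y 0) (Y 1) ∨ Tch G (Y 0) (Y 2) := by
    obtain ⟨u, hu, v, hv, hvn, e⟩ := hW.2 (Y 0) (sub 0) ⟨r 0, hrY 0⟩ (by
      intro he
      have h1 := hr 1
      rw [← he] at h1
      exact Finset.disjoint_left.1 d01 h1 (hrY 1))
    rcases (cov v).1 hv with h | h | h
    · exact (hvn h).elim
    · exact Or.inl ⟨u, hu, v, h, e⟩
    · exact Or.inr ⟨u, hu, v, h, e⟩
  have a1 : Tch G (Y 0) (Y 2) ∨ Tch G (Y 1) (Y 2) := by
    obtain ⟨u, hu, v, hv, hvn, e⟩ := hW.2 (Y 0 ∪ Y 1) (Finset.union_subset (sub 0) (sub 1))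
      ⟨r 0, Finset.mem_union_left _ (hrY 0)⟩ (by
      intro he
      have h1 := hr 2
      rw [← he] at h1
      rcases Finset.mem_union.1 h1 with h1 | h1
      · exact Finset.disjoint_left.1 d02 h1 (hrY 2)
      · exact Finset.disjoint_left.1 d12 h1 (hrY 2))
    rw [Finset.mem_union, not_or] at hvn
    rcases (cov v).1 hv with h | h | h
    · exact (hvn.1 h).elim
    · exact (hvn.2 h).elim
    · rcases Finset.mem_union.1 hu with hu | hu
      · exact Or.inl ⟨u, hu, v, h, e⟩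
      · exact Or.inr ⟨u, hu, v, h, e⟩
  have a2 : Tch G (Y 0) (Y 1) ∨ Tch G (Y 1) (Y 2) := by
    obtain ⟨u, hu, v, hv, hvn, e⟩ := hW.2 (Y 1) (sub 1) ⟨r 1, hrY 1⟩ (by
      intro he
      have h1 := hr 0
      rw [← he] at h1
      exact Finset.disjoint_left.1 d01 (hrY 0) h1)
    rcases (cov v).1 hv with h | h | h
    · exact Or.inl ⟨v, h, u, hu, e.symm⟩
    · exact (hvn h).elim
    · exact Or.inr ⟨u, hu, v, h, e⟩
  by_cases t01 : Tch G (Y 0) (Y 1)
  · by_cases t02 : Tch G (Y 0) (Y 2)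
    · obtain ⟨M, A, C, hg, ht⟩ := core h2 _ (Y 0) (Y 1) (Y 2) rfl
        (⟨hrY 0, hrY 1, hrY 2, hY2 0, hY2 1, hY2 2, d01, d02, d12, cov, t01, t02⟩ :
          Good G W (r 0) (r 1) (r 2) (Y 0) (Y 1) (Y 2))
      exact fin hg.hm hg.ha hg.hc hg.cM hg.cA hg.cC hg.dMA hg.dMC hg.dAC hg.cov hg.tMA hg.tMC ht
    · have t12 : Tch G (Y 1) (Y 2) := a1.resolve_left t02
      obtain ⟨M, A, C, hg, ht⟩ := core h2 _ (Y 1) (Y 0) (Y 2) rfl
        (⟨hrY 1, hrY 0, hrY 2, hY2 1, hY2 0, hY2 2, d01.symm, d12, d02,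
          fun v => by rw [cov v]; tauto, t01.symm, t12⟩ :
          Good G W (r 1) (r 0) (r 2) (Y 1) (Y 0) (Y 2))
      exact fin hg.ha hg.hm hg.hc hg.cA hg.cM hg.cC hg.dMA.symm hg.dAC hg.dMC
        (fun v => by rw [hg.cov v]; tauto) hg.tMA.symm ht hg.tMC
  · have t02 : Tch G (Y 0) (Y 2) := a0.resolve_left t01
    have t12 : Tch G (Y 1) (Y 2) := a2.resolve_left t01
    obtain ⟨M, A, C, hg, ht⟩ := core h2 _ (Y 2) (Y 0) (Y 1) rfl
      (⟨hrY 2, hrY 0, hrY 1, hY2 2, hY2 0, hY2 1, d02.symm, d12.symm, d01,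
        fun v => by rw [cov v]; tauto, t02.symm, t12.symm⟩ :
        Good G W (r 2) (r 0) (r 1) (Y 2) (Y 0) (Y 1))
    exact fin hg.ha hg.hc hg.hm hg.cA hg.cC hg.cM hg.dAC hg.dMA.symm hg.dMC.symm
      (fun v => by rw [hg.cov v]; tauto) ht hg.tMA.symm hg.tMC.symm

end K5W
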