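import Pool.Agent.Lib.K5W.K5q

/-!
# K5W.M8b: basic facts on spanning models of `V_8`

`M8.rot`: rotation by `r` (`v8 (i + r) (j + r) = v8 i j` by `decide`, `Fin 8` addition is cyclic;
for `cov` use `i = (i - r) + r`).

`chord`: after `M8.rot` by `i` we may assume `i = 0` and `j ∈ {2, 3, 5, 6}` (`v8 0 j = false`,
`j ≠ 0`).  `j = 6` is `j = 2` after a rotation by `6` (the pair `(6, 0)` becomes `(0, 2)`), `j = 5` is
`j = 3` after a rotation by `5`.  `k5_q` with the list of the 12 edges of `V_8` and the chord: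
* chord `(0, 2)`: classes `{0}, {2}, {1, 5}, {3, 4}, {6, 7}`;
* chord `(0, 3)`: classes `{0}, {3}, {1, 2}, {4, 5}, {6, 7}`.

`nbr`: immediate from `h.cov` and `chord`.

`M8.move`: move `Z` from `X i` to the neighbour `X j`; the other two neighbours `k` of `i` touch `X i`
and not `Z`, so they touch `Y`; `Y ~ Z` by `Bip.tch`.
-/

namespace K5W

open Finset P512

variable {V : Type*} [DecidableEq V] {G : SimpleGraph V}

namespace M8bAux

theorem v8_rot : ∀ i j r : Fin 8, v8 i j = true → v8 (i + r) (j + r) = true := by decide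

theorem v8_symm : ∀ i j : Fin 8, v8 i j = true → v8 j i = true := by decide

theorem v8_ne : ∀ i j : Fin 8, v8 i j = true → i ≠ j := by decide

theorem v8_cases : ∀ i j : Fin 8, i ≠ j → v8 i j = false →
    j = 2 + i ∨ j = 3 + i ∨ i = 2 + j ∨ i = 3 + j := by decide

/-- the Wagner graph with a chord -/
def R8 (a b i j : Fin 8) : Bool := v8 i j || decide (i = a ∧ j = b)

end M8bAux

open M8bAux

theorem M8.rot {U : Finset V} {X : Fin 8 → Finset V} (h : M8 G U X) (r : Fin 8) :
    M8 G U (fun i => X (i + r)) := by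
  refine ⟨fun i => h.conn _, fun i j hij => h.dj _ _ (fun e => hij (add_right_cancel e)),
    fun i j hij => h.adj _ _ (v8_rot i j r hij), fun v => ?_⟩
  rw [h.cov v]
  constructor
  · rintro ⟨i, hi⟩
    exact ⟨i - r, by rwa [sub_add_cancel]⟩
  · rintro ⟨i, hi⟩
    exact ⟨_, hi⟩

namespace M8bAux

theorem chord_aux {U : Finset V} {X : Fin 8 → Finset V} (h : M8 G U X) {b : Fin 8}
    (ht : Tch G (X 0) (X b)) (p : Fin 5 → Fin 8 × Fin 8) (hp : Good (R8 0 b) p) : K5 G := by
  refine k5_q X h.conn h.dj (R8 0 b) (fun x y hxy => ?_) p hp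
  unfold R8 at hxy
  rw [Bool.or_eq_true, decide_eq_true_eq] at hxy
  rcases hxy with hxy | ⟨rfl, rfl⟩
  · exact h.adj _ _ hxy
  · exact ht

theorem chord2 {U : Finset V} {X : Fin 8 → Finset V} (h : M8 G U X)
    (ht : Tch G (X 0) (X 2)) : K5 G :=
  chord_aux h ht ![(0, 0), (2, 2), (1, 5), (3, 4), (6, 7)] (by decide)

theorem chord3 {U : Finset V} {X : Fin 8 → Finset V} (h : M8 G U X)
    (ht : Tch G (X 0) (X 3)) : K5 G :=
  chord_aux h ht ![(0, 0), (3, 3), (1, 2), (4, 5), (6, 7)] (by decide)

end M8bAux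

theorem chord {U : Finset V} {X : Fin 8 → Finset V} (h : M8 G U X) {i j : Fin 8} (hij : i ≠ j)
    (hv : v8 i j = false) (ht : Tch G (X i) (X j)) : K5 G := by
  rcases v8_cases i j hij hv with rfl | rfl | rfl | rfl
  · exact chord2 (h.rot i) (by simpa using ht)
  · exact chord3 (h.rot i) (by simpa using ht)
  · exact chord2 (h.rot j) (by simpa using ht.symm)
  · exact chord3 (h.rot j) (by simpa using ht.symm)

theorem nbr {U : Finset V} {X : Fin 8 → Finset V} (h5 : ¬ K5 G) (h : M8 G U X) {i : Fin 8}
    {u v : V} (hu : u ∈ X i) (hv : v ∈ U) (huv : G.Adj u v) :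
    v ∈ X i ∨ ∃ j, v8 i j = true ∧ v ∈ X j := by
  obtain ⟨j, hj⟩ := (h.cov v).1 hv
  by_cases hij : i = j
  · subst hij; exact Or.inl hj
  · right
    refine ⟨j, ?_, hj⟩
    by_contra hne
    exact h5 (chord h hij (by simpa using hne) ⟨u, hu, v, hj, huv⟩)

theorem M8.move {U : Finset V} {X : Fin 8 → Finset V} (h : M8 G U X) {i j : Fin 8}
    {Y Z : Finset V} (hb : Bip G (X i) Y Z) (hij : v8 i j = true) (hZ : Tch G (X j) Z)
    (hn : ∀ k, v8 i k = true → k ≠ j → ¬ Tch G (X k) Z) :
    M8 G U (Function.update (Function.update X i Y) j (X j ∪ Z)) := by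
  have hne : i ≠ j := v8_ne i j hij
  set X' := Function.update (Function.update X i Y) j (X j ∪ Z) with hX'
  have ej : X' j = X j ∪ Z := Function.update_self _ _ _
  have ei : X' i = Y := by
    rw [hX', Function.update_of_ne hne, Function.update_self]
  have ek : ∀ k, k ≠ i → k ≠ j → X' k = X k := by
    intro k h1 h2
    rw [hX', Function.update_of_ne h2, Function.update_of_ne h1]
  have hdis : ∀ k, k ≠ i → k ≠ j → Disjoint Y (X k) ∧ Disjoint (X j ∪ Z) (X k) := by
    intro k h1 h2
    refine ⟨Finset.disjoint_of_subset_left hb.subY (h.dj _ _ h1.symm), ?_⟩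
    rw [Finset.disjoint_union_left]
    exact ⟨h.dj _ _ h2.symm, Finset.disjoint_of_subset_left hb.subZ (h.dj _ _ h1.symm)⟩
  have hdij : Disjoint Y (X j ∪ Z) := by
    rw [Finset.disjoint_union_right]
    exact ⟨Finset.disjoint_of_subset_left hb.subY (h.dj _ _ hne), hb.dj⟩
  have hYZ : Tch G Y Z := hb.tch (h.conn i)
  have hY : ∀ k, v8 i k = true → k ≠ j → Tch G Y (X k) := by
    intro k h1 h2
    rcases hb.tch_iff.1 (h.adj i k h1).symm with h3 | h3
    · exact h3.symm
    · exact absurd h3 (hn k h1 h2)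
  refine ⟨fun k => ?_, fun k l hkl => ?_, fun k l hkl => ?_, fun v => ?_⟩
  · by_cases h1 : k = i
    · subst h1; rw [ei]; exact hb.cY
    · by_cases h2 : k = j
      · subst h2; rw [ej]; exact conn_un (h.conn _) hb.cZ hZ
      · rw [ek k h1 h2]; exact h.conn k
  · by_cases h1 : k = i
    · subst h1
      by_cases h2 : l = j
      · subst h2; rw [ei, ej]; exact hdij
      · rw [ei, ek l hkl.symm h2]; exact (hdis l hkl.symm h2).1
    · by_cases h2 : k = j
      · subst h2
        by_cases h3 : l = i
        · subst h3; rw [ei, ej]; exact hdij.symm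
        · rw [ej, ek l h3 hkl.symm]; exact (hdis l h3 hkl.symm).2
      · rw [ek k h1 h2]
        by_cases h3 : l = i
        · subst h3; rw [ei]; exact (hdis k h1 h2).1.symm
        · by_cases h4 : l = j
          · subst h4; rw [ej]; exact (hdis k h1 h2).2.symm
          · rw [ek l h3 h4]; exact h.dj k l hkl
  · have hkl' := v8_symm _ _ hkl
    have hkln := v8_ne _ _ hkl
    by_cases h1 : k = i
    · subst h1
      by_cases h2 : l = j
      · subst h2; rw [ei, ej]; exact hYZ.of_subset_right Finset.subset_union_right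
      · rw [ei, ek l hkln.symm h2]; exact hY l hkl h2
    · by_cases h2 : k = j
      · subst h2
        by_cases h3 : l = i
        · subst h3; rw [ei, ej]; exact (hYZ.of_subset_right Finset.subset_union_right).symm
        · rw [ej, ek l h3 hkln.symm]
          exact (h.adj k l hkl).mono Finset.subset_union_left le_rfl
      · rw [ek k h1 h2]
        by_cases h3 : l = i
        · subst h3; rw [ei]; exact (hY k hkl' h2).symm
        · by_cases h4 : l = j
          · subst h4; rw [ej]
            exact (h.adj k l hkl).of_subset_right Finset.subset_union_left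
          · rw [ek l h3 h4]; exact h.adj k l hkl
  · rw [h.cov v]
    constructor
    · rintro ⟨k, hk⟩
      by_cases h1 : k = i
      · subst h1
        rcases hb.mem hk with h2 | h2
        · exact ⟨k, by rw [ei]; exact h2⟩
        · exact ⟨j, by rw [ej]; exact Finset.mem_union_right _ h2⟩
      · by_cases h2 : k = j
        · subst h2; exact ⟨k, by rw [ej]; exact Finset.mem_union_left _ hk⟩
        · exact ⟨k, by rw [ek k h1 h2]; exact hk⟩
    · rintro ⟨k, hk⟩
      by_cases h1 : k = i
      · subst h1; rw [ei] at hk; exact ⟨k, hb.subY hk⟩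
      · by_cases h2 : k = j
        · subst h2; rw [ej] at hk
          rcases Finset.mem_union.1 hk with h3 | h3
          · exact ⟨k, h3⟩
          · exact ⟨i, hb.subZ h3⟩
        · rw [ek k h1 h2] at hk; exact ⟨k, hk⟩

end K5W
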