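import Pool.Agent.Lib.K5W.Thr
import Pool.Agent.Lib.K5W.M8b

/-!
# K5W.Sdr: distinct attachment vertices of the last branch set

`X i` is a single vertex for `i < 7` and `W = X 7` has at least three vertices.  The neighbours of `7`
are `0, 3, 6`.

`sdr`: Hall's theorem (`Finset.all_card_le_biUnion_card_iff_exists_injective`) for
`t j = W.filter (fun w => Tch G (X (c j)) {w})`, `c = ![0, 3, 6]` (classical decidability).  Let
`s : Finset (Fin 3)` violate Hall's condition: `T = s.biUnion t`, `#T < #s ≤ 3 ≤ #W`.  `D = W \ T` is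
nonempty, and its neighbours in `U` are in `D`, in `T` or in `X (c j)` with `j ∉ s`.  `Thr.sep` with
`S = T ∪ (univ \ s).biUnion (fun j => X (c j))`, `#S ≤ #T + (3 - #s) ≤ 2`, and `w` in `X 1`.
-/

namespace K5W

open Finset P512

variable {V : Type*} [DecidableEq V] {G : SimpleGraph V}

namespace SdrAux

/-- The neighbours of `7`. -/
def c : Fin 3 → Fin 8 := ![0, 3, 6]

theorem v8_seven (j : Fin 8) (h : v8 7 j = true) : ∃ k : Fin 3, c k = j := by
  revert j
  decide

theorem c_lt (k : Fin 3) : c k < 7 := by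
  revert k
  decide

theorem c_ne (k : Fin 3) : c k ≠ 1 := by
  revert k
  decide

end SdrAux

open SdrAux in
theorem sdr {U : Finset V} (h3 : Thr G U) (h5 : ¬ K5 G) {X : Fin 8 → Finset V}
    (h : M8 G U X) (h1 : ∀ i, i < 7 → (X i).card = 1) (h2 : 3 ≤ (X 7).card) :
    ∃ r : Fin 3 → V, Function.Injective r ∧ (∀ j, r j ∈ X 7) ∧
      ∀ j, Tch G (X ((![0, 3, 6] : Fin 3 → Fin 8) j)) {r j} := by
  classical
  set t : Fin 3 → Finset V := fun j => (X 7).filter (fun w => Tch G (X (c j)) {w}) with ht
  have hall : ∀ s : Finset (Fin 3), s.card ≤ (s.biUnion t).card := by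
    intro s
    by_contra hcon
    rw [not_le] at hcon
    have hT : s.biUnion t ⊆ X 7 := by
      intro x hx
      obtain ⟨j, _, hxj⟩ := Finset.mem_biUnion.1 hx
      exact (Finset.mem_filter.1 hxj).1
    have hs3 : s.card ≤ 3 := by
      have := Finset.card_le_univ s
      rwa [Fintype.card_fin] at this
    have hD : (X 7 \ s.biUnion t).Nonempty := by
      rw [← Finset.card_pos, Finset.card_sdiff_of_subset hT]
      omega
    have hS : (s.biUnion t ∪ (univ \ s).biUnion (fun j => X (c j))).card ≤ 2 := by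
      have e1 : ((univ \ s).biUnion (fun j => X (c j))).card ≤ 3 - s.card := by
        refine Finset.card_biUnion_le.trans ?_
        rw [Finset.sum_congr rfl fun j _ => h1 (c j) (c_lt j), Finset.sum_const, smul_eq_mul,
          mul_one, Finset.card_sdiff_of_subset (Finset.subset_univ s), Finset.card_univ,
          Fintype.card_fin]
      have e2 := Finset.card_union_le (s.biUnion t) ((univ \ s).biUnion (fun j => X (c j)))
      omega
    obtain ⟨w, hw⟩ := (h.conn 1).1
    refine Thr.sep h3 hS hD ?_ ?_ ?_ (w := w) ((h.cov w).2 ⟨1, hw⟩) ?_ ?_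
    · intro x hx
      exact (h.cov x).2 ⟨7, (Finset.mem_sdiff.1 hx).1⟩
    · rw [Finset.disjoint_union_right]
      refine ⟨Finset.sdiff_disjoint, ?_⟩
      rw [Finset.disjoint_biUnion_right]
      intro j _
      exact (h.dj 7 (c j) (c_lt j).ne').mono_left Finset.sdiff_subset
    · intro u hu v hv huv
      obtain ⟨hu1, hu2⟩ := Finset.mem_sdiff.1 hu
      rcases nbr h5 h hu1 hv huv with h4 | ⟨j, hj, hvj⟩
      · by_cases h6 : v ∈ s.biUnion t
        · exact Or.inr (Finset.mem_union_left _ h6)
        · exact Or.inl (Finset.mem_sdiff.2 ⟨h4, h6⟩)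
      · obtain ⟨k, rfl⟩ := v8_seven j hj
        by_cases h6 : k ∈ s
        · exfalso
          refine hu2 (Finset.mem_biUnion.2 ⟨k, h6, Finset.mem_filter.2 ⟨hu1, ?_⟩⟩)
          exact ⟨v, hvj, u, Finset.mem_singleton_self u, huv.symm⟩
        · refine Or.inr (Finset.mem_union_right _ (Finset.mem_biUnion.2 ⟨k, ?_, hvj⟩))
          exact Finset.mem_sdiff.2 ⟨Finset.mem_univ k, h6⟩
    · intro hwD
      exact Finset.disjoint_left.1 (h.dj 1 7 (by decide)) hw (Finset.mem_sdiff.1 hwD).1
    · intro hwS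
      rcases Finset.mem_union.1 hwS with h6 | h6
      · exact Finset.disjoint_left.1 (h.dj 1 7 (by decide)) hw (hT h6)
      · obtain ⟨k, _, hk⟩ := Finset.mem_biUnion.1 h6
        exact Finset.disjoint_left.1 (h.dj 1 (c k) (c_ne k).symm) hw hk
  obtain ⟨r, hr, hr'⟩ := (Finset.all_card_le_biUnion_card_iff_exists_injective t).1 hall
  exact ⟨r, hr, fun j => (Finset.mem_filter.1 (hr' j)).1,
    fun j => (Finset.mem_filter.1 (hr' j)).2⟩

end K5W
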