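import Pool.Agent.Lib.K5W.Seven
import Pool.Agent.Lib.K5W.LastC
import Pool.Agent.Lib.K5W.Sdr
import Pool.Agent.Lib.K5W.RK3
import Pool.Agent.Lib.K5W.LastK

/-!
# K5W.W1: a 3-connected graph without `K_5` minor with a spanning `V_8` model is `V_8`
-/

namespace K5W

open Finset P512

variable {V : Type*} [DecidableEq V] {G : SimpleGraph V}

/-- `G` restricted to `U` is the Wagner graph `V_8`. -/
def IsV8 (G : SimpleGraph V) (U : Finset V) : Prop :=
  ∃ f : Fin 8 → V, Function.Injective f ∧ (∀ v, v ∈ U ↔ ∃ i, f i = v) ∧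
    ∀ i j, G.Adj (f i) (f j) ↔ v8 i j = true

theorem w1 {U : Finset V} (h3 : Thr G U) (h5 : ¬ K5 G) {X : Fin 8 → Finset V}
    (h : M8 G U X) : IsV8 G U := by
  obtain ⟨Y, hY, h1⟩ := seven h3 h5 h
  have h7 : (Y 7).card = 1 := by
    by_contra hne
    have hpos : 0 < (Y 7).card := Finset.card_pos.2 (hY.conn 7).1
    have h2 : 2 ≤ (Y 7).card := by omega
    have h3' := last_three h3 h5 hY h1 h2
    obtain ⟨r, hinj, hr, ht⟩ := sdr h3 h5 hY h1 h3'
    obtain ⟨S, a1, a2, a3, a4, a5⟩ := rk3 (hY.conn 7)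
      (fun v hv => last_conn h3 h5 hY h1 h2 hv) r hr hinj
    refine h5 (last_k5 hY a2 a3 a4 a5 ?_ ?_ ?_)
    · exact (ht 0).mono le_rfl (Finset.singleton_subset_iff.2 (a1 0))
    · exact (ht 1).mono le_rfl (Finset.singleton_subset_iff.2 (a1 1))
    · exact (ht 2).mono le_rfl (Finset.singleton_subset_iff.2 (a1 2))
  have hone : ∀ i, (Y i).card = 1 := by
    intro i
    by_cases hi : i < 7
    · exact h1 i hi
    · have : i = 7 := by
        revert hi
        revert i
        decide
      rw [this]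
      exact h7
  choose f hf using fun i => Finset.card_eq_one.1 (hone i)
  refine ⟨f, fun i j hij => ?_, fun v => ?_, fun i j => ?_⟩
  · by_contra hne
    have := hY.dj i j hne
    rw [hf i, hf j, Finset.disjoint_singleton] at this
    exact this hij
  · rw [hY.cov v]
    simp only [hf, Finset.mem_singleton]
    exact ⟨fun ⟨i, h⟩ => ⟨i, h.symm⟩, fun ⟨i, h⟩ => ⟨i, h.symm⟩⟩
  · constructor
    · intro hadj
      by_contra hv
      have hne : i ≠ j := by
        rintro rfl
        exact G.loopless.irrefl _ hadj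
      refine h5 (chord hY hne (by simpa using hv) ⟨f i, ?_, f j, ?_, hadj⟩)
      · rw [hf i]; exact Finset.mem_singleton_self _
      · rw [hf j]; exact Finset.mem_singleton_self _
    · intro hv
      obtain ⟨u, hu, v, hv', e⟩ := hY.adj i j hv
      rw [hf i, Finset.mem_singleton] at hu
      rw [hf j, Finset.mem_singleton] at hv'
      subst hu
      subst hv'
      exact e

end K5W
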