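import Pool.Agent.Lib.K5W.Beta

/-!
# K5W.D8: both sides of a `K_{3,3}` model split

`oct`.  Put `S = ![P, Q, K, L, Y, Z, M, N]`.
(a) If `P` touches `Z` and `Q` touches `Y`: the sets `P, Q, M, K, Z, Y, L, N` in this order form an
    `M8` model (the edges of `V_8`: `PQ, QM, MK, KZ, ZY, YL, LN, NP` and `PZ, QY, ML, KN`).
(b) If `P` touches `Y` and `Q` touches `Z`: the sets `Q, P, N, K, Z, Y, L, M` in this order form
    an `M8` model (exchange `P, Q` and `M, N`).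
(c) Otherwise, by cases on the two disjunctions `h1`, `h2` (all touching `Y ∪ Z` etc. split by
    `tch_union_right`):
    * first, first: impossible (propositional);
    * first, second: `P` and `Q` touch `Z`, and `K` touches `Y`: `K5` with the sets
      `K, Z, P ∪ N, Q ∪ M, L ∪ Y`;
    * second, first: `P` touches `M`, and `Q` touches `Y` and `Z`: `K5` with the sets
      `Q, M, P ∪ N, K ∪ Z, L ∪ Y`;
    * second, second: `P` touches `M`, `K` touches `Y`, `Q` touches `Z`: `K5` with the sets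
      `K, M, P ∪ N, Q ∪ Z, L ∪ Y`.
(`k5_q` with `rel L`, `Good` by `decide`.)

`d8`.  `two_pair h.k hb`-type facts: for `Bip G (A i) P Q` use `two_pair h.k.swap`: distinct
`x, y, z` with `B x ~ P`, `B y ~ P`, `B y ~ Q`, `B z ~ Q`.  If `x = 0` exchange `P, Q` (and `x, z`);
so `y = 0` or `z = 0`.
* `y = 0`: `N = B x`, `M = B z`; `P, Q` both touch `B 0 = Y ∪ Z`: first alternative of `h1`.
* `z = 0`: `N = B x`, `M = B y`; `P` touches `M` and `Q` touches `B 0`: second alternative.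
For `Bip G (B 0) Y Z` use `two_pair h.k`: distinct `x', y', z'` with `A x' ~ Y`, `A y' ~ Y`,
`A y' ~ Z`, `A z' ~ Z`; if `x' = i` exchange `Y, Z`; so `y' = i` or `z' = i`.
* `y' = i`: `L = A x'`, `K = A z'`: first alternative of `h2`.
* `z' = i`: `L = A x'`, `K = A y'`: second alternative.
-/

namespace K5W

open Finset P512

variable {V : Type*} [DecidableEq V] {G : SimpleGraph V}

namespace D8Aux

/-- Check that `σ` is a spanning `V_8` in the relation given by the list `L`. -/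
def Chk (L : List (Fin 8 × Fin 8)) (σ : Fin 8 → Fin 8) : Prop :=
  (∀ i j, i ≠ j → σ i ≠ σ j) ∧ (∀ a, ∃ i, σ i = a) ∧
    ∀ i j, v8 i j = true → rel L (σ i) (σ j) = true ∨ rel L (σ j) (σ i) = true

instance (L : List (Fin 8 × Fin 8)) (σ : Fin 8 → Fin 8) : Decidable (Chk L σ) := by
  unfold Chk
  infer_instance

theorem m8_q {U : Finset V} (S : Fin 8 → Finset V) (hc : ∀ i, Conn G (S i))
    (hd : ∀ i j, i ≠ j → Disjoint (S i) (S j)) (hcov : ∀ v, v ∈ U ↔ ∃ i, v ∈ S i)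
    (L : List (Fin 8 × Fin 8)) (hL : ∀ e ∈ L, Tch G (S e.1) (S e.2)) (σ : Fin 8 → Fin 8)
    (h : Chk L σ) : M8 G U (fun i => S (σ i)) := by
  obtain ⟨h1, h2, h3⟩ := h
  refine ⟨fun i => hc _, fun i j hij => hd _ _ (h1 i j hij), fun i j hij => ?_, fun v => ?_⟩
  · rcases h3 i j hij with h | h
    · exact rel_tch hL _ _ h
    · exact (rel_tch hL _ _ h).symm
  · rw [hcov v]
    constructor
    · rintro ⟨a, ha⟩
      obtain ⟨i, rfl⟩ := h2 a
      exact ⟨i, ha⟩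
    · rintro ⟨i, hi⟩
      exact ⟨_, hi⟩

theorem neq {S : Fin 8 → Finset V} (hd : ∀ i j, i < j → Disjoint (S i) (S j)) :
    ∀ i j, i ≠ j → Disjoint (S i) (S j) := by
  intro i j hij
  rcases lt_or_gt_of_ne hij with h | h
  · exact hd i j h
  · exact (hd j i h).symm

/-- Choice of the indices of one side. -/
theorem red {U : Finset V} {A B : Fin 3 → Finset V} (h : K33 G U A B) {j : Fin 3}
    {Y Z : Finset V} (hb : Bip G (B j) Y Z) (hY : Two G A Y) (hZ : Two G A Z) (i : Fin 3) :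
    ∃ (Y' Z' : Finset V) (k l : Fin 3), Bip G (B j) Y' Z' ∧ k ≠ l ∧ k ≠ i ∧ l ≠ i ∧
      Tch G (A l) Y' ∧ Tch G (A k) Z' ∧
      ((Tch G (A i) Y' ∧ Tch G (A i) Z') ∨ (Tch G (A k) Y' ∧ Tch G (A i) Z')) := by
  obtain ⟨x, y, z, hxy, hxz, hyz, t1, t2, t3, t4⟩ := two_pair h hb hY hZ
  by_cases hy : y = i
  · subst hy
    exact ⟨Y, Z, z, x, hb, hxz.symm, hyz.symm, hxy, t1, t4, Or.inl ⟨t2, t3⟩⟩
  · by_cases hz : z = i
    · subst hz
      exact ⟨Y, Z, y, x, hb, hxy.symm, hyz, hxz, t1, t3, Or.inr ⟨t2, t4⟩⟩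
    · have hx : x = i := by
        clear t1 t2 t3 t4
        omega
      subst hx
      exact ⟨Z, Y, y, z, hb.symm, hyz, hxy.symm, hxz.symm, t4, t2, Or.inr ⟨t3, t1⟩⟩

theorem all3 {i k l : Fin 3} (h1 : k ≠ l) (h2 : k ≠ i) (h3 : l ≠ i) (x : Fin 3) :
    x = i ∨ x = k ∨ x = l := by
  revert h1 h2 h3
  revert x i k l
  decide

end D8Aux

open D8Aux

theorem oct {U : Finset V} {P Q K L Y Z M N : Finset V}
    (hc : ∀ i, Conn G ((![P, Q, K, L, Y, Z, M, N] : Fin 8 → Finset V) i))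
    (hd : ∀ i j, i < j → Disjoint ((![P, Q, K, L, Y, Z, M, N] : Fin 8 → Finset V) i)
      ((![P, Q, K, L, Y, Z, M, N] : Fin 8 → Finset V) j))
    (hcov : ∀ v, v ∈ U ↔ ∃ i, v ∈ (![P, Q, K, L, Y, Z, M, N] : Fin 8 → Finset V) i)
    (PQ : Tch G P Q) (YZ : Tch G Y Z) (KM : Tch G K M) (KN : Tch G K N) (LM : Tch G L M)
    (LN : Tch G L N) (PN : Tch G P N) (QM : Tch G Q M) (KZ : Tch G K Z) (LY : Tch G L Y)
    (h1 : (Tch G P (Y ∪ Z) ∧ Tch G Q (Y ∪ Z)) ∨ (Tch G P M ∧ Tch G Q (Y ∪ Z)))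
    (h2 : (Tch G Y (P ∪ Q) ∧ Tch G Z (P ∪ Q)) ∨ (Tch G K Y ∧ Tch G Z (P ∪ Q))) :
    K5 G ∨ ∃ X, M8 G U X := by
  have hd' := neq hd
  simp only [tch_union_right] at h1 h2
  rw [tch_comm (S := Y) (T := P), tch_comm (S := Y) (T := Q), tch_comm (S := Z) (T := P),
    tch_comm (S := Z) (T := Q)] at h2
  by_cases ha : Tch G P Z ∧ Tch G Q Y
  · obtain ⟨PZ, QY⟩ := ha
    refine Or.inr ⟨_, m8_q _ hc hd' hcov [(0, 1), (1, 6), (2, 6), (2, 5), (4, 5), (3, 4), (3, 7),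
      (0, 7), (0, 5), (1, 4), (3, 6), (2, 7)] ?_ ![0, 1, 6, 2, 5, 4, 3, 7] (by decide)⟩
    simp only [List.forall_mem_cons]
    exact ⟨PQ, QM, KM, KZ, YZ, LY, LN, PN, PZ, QY, LM, KN, by simp⟩
  by_cases hb : Tch G P Y ∧ Tch G Q Z
  · obtain ⟨PY, QZ⟩ := hb
    refine Or.inr ⟨_, m8_q _ hc hd' hcov [(0, 1), (0, 7), (2, 7), (2, 5), (4, 5), (3, 4), (3, 6),
      (1, 6), (1, 5), (0, 4), (3, 7), (2, 6)] ?_ ![1, 0, 7, 2, 5, 4, 3, 6] (by decide)⟩
    simp only [List.forall_mem_cons]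
    exact ⟨PQ, PN, KN, KZ, YZ, LY, LM, QM, QZ, PY, LN, KM, by simp⟩
  left
  rcases h1 with h1 | h1 <;> rcases h2 with h2 | h2
  · exfalso
    tauto
  · have PZ : Tch G P Z := by tauto
    have QZ : Tch G Q Z := by tauto
    refine k5_q _ hc hd' (rel [(2, 5), (2, 7), (2, 6), (2, 4), (0, 5), (1, 5), (4, 5), (0, 1),
      (3, 7), (3, 6), (0, 7), (1, 6), (3, 4)]) (rel_tch ?_)
      ![(2, 2), (5, 5), (0, 7), (1, 6), (3, 4)] (by decide)
    simp only [List.forall_mem_cons]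
    exact ⟨KZ, KN, KM, h2.1, PZ, QZ, YZ, PQ, LN, LM, PN, QM, LY, by simp⟩
  · have QY : Tch G Q Y := by tauto
    have QZ : Tch G Q Z := by tauto
    refine k5_q _ hc hd' (rel [(1, 6), (0, 1), (1, 5), (1, 4), (0, 6), (2, 6), (3, 6), (2, 7),
      (3, 7), (4, 5), (0, 7), (2, 5), (3, 4)]) (rel_tch ?_)
      ![(1, 1), (6, 6), (0, 7), (2, 5), (3, 4)] (by decide)
    simp only [List.forall_mem_cons]
    exact ⟨QM, PQ, QZ, QY, h1.1, KM, LM, KN, LN, YZ, PN, KZ, LY, by simp⟩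
  · have QZ : Tch G Q Z := by tauto
    refine k5_q _ hc hd' (rel [(2, 6), (2, 7), (2, 5), (2, 4), (0, 6), (1, 6), (3, 6), (0, 1),
      (3, 7), (4, 5), (0, 7), (1, 5), (3, 4)]) (rel_tch ?_)
      ![(2, 2), (6, 6), (0, 7), (1, 5), (3, 4)] (by decide)
    simp only [List.forall_mem_cons]
    exact ⟨KM, KN, KZ, h2.1, h1.1, QM, LM, PQ, LN, YZ, PN, QZ, LY, by simp⟩

theorem d8 {U : Finset V} (h5 : ¬ K5 G) {A B : Fin 3 → Finset V} {Y Z : Finset V}
    (h : C7 G U A B Y Z) {i : Fin 3} {P Q : Finset V} (hb : Bip G (A i) P Q) (hP : Two G B P)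
    (hQ : Two G B Q) : ∃ X, M8 G U X := by
  obtain ⟨P', Q', m, n, hPQ, hmn, hm, hn, tNP, tMQ, hh1⟩ := red h.k.swap hb hP hQ 0
  obtain ⟨Y', Z', k, l, hYZ, hkl, hk, hl, tLY, tKZ, hh2⟩ := red h.k h.bip h.twY h.twZ i
  have hA := h.k
  refine (oct (P := P') (Q := Q') (K := A k) (L := A l) (Y := Y') (Z := Z') (M := B m)
    (N := B n) (U := U) ?_ ?_ ?_ (hPQ.tch (hA.cA i)) (hYZ.tch (hA.cB 0)) (hA.adj k m)
    (hA.adj k n) (hA.adj l m) (hA.adj l n) tNP.symm tMQ.symm tKZ tLY ?_ ?_).resolve_left h5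
  · intro a
    fin_cases a
    · exact hPQ.cY
    · exact hPQ.cZ
    · exact hA.cA k
    · exact hA.cA l
    · exact hYZ.cY
    · exact hYZ.cZ
    · exact hA.cB m
    · exact hA.cB n
  · have d1 : ∀ x y, Disjoint (A x) (B y) := hA.dAB
    have sP := hPQ.subY
    have sQ := hPQ.subZ
    have sY := hYZ.subY
    have sZ := hYZ.subZ
    have e := fun {a b a' b' : Finset V} (h1 : Disjoint a b) (h2 : a' ⊆ a) (h3 : b' ⊆ b) =>
      (Finset.disjoint_of_subset_left h2 (Finset.disjoint_of_subset_right h3 h1) :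
        Disjoint a' b')
    have r := fun (a : Finset V) => (Finset.Subset.refl a)
    have q01 : Disjoint P' Q' := hPQ.dj
    have q45 : Disjoint Y' Z' := hYZ.dj
    have q02 : Disjoint P' (A k) := e (hA.dA i k hk.symm) sP (r _)
    have q03 : Disjoint P' (A l) := e (hA.dA i l hl.symm) sP (r _)
    have q12 : Disjoint Q' (A k) := e (hA.dA i k hk.symm) sQ (r _)
    have q13 : Disjoint Q' (A l) := e (hA.dA i l hl.symm) sQ (r _)
    have q23 : Disjoint (A k) (A l) := hA.dA k l hkl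
    have q04 : Disjoint P' Y' := e (d1 i 0) sP sY
    have q05 : Disjoint P' Z' := e (d1 i 0) sP sZ
    have q14 : Disjoint Q' Y' := e (d1 i 0) sQ sY
    have q15 : Disjoint Q' Z' := e (d1 i 0) sQ sZ
    have q24 : Disjoint (A k) Y' := e (d1 k 0) (r _) sY
    have q25 : Disjoint (A k) Z' := e (d1 k 0) (r _) sZ
    have q34 : Disjoint (A l) Y' := e (d1 l 0) (r _) sY
    have q35 : Disjoint (A l) Z' := e (d1 l 0) (r _) sZ
    have q06 : Disjoint P' (B m) := e (d1 i m) sP (r _)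
    have q07 : Disjoint P' (B n) := e (d1 i n) sP (r _)
    have q16 : Disjoint Q' (B m) := e (d1 i m) sQ (r _)
    have q17 : Disjoint Q' (B n) := e (d1 i n) sQ (r _)
    have q26 : Disjoint (A k) (B m) := d1 k m
    have q27 : Disjoint (A k) (B n) := d1 k n
    have q36 : Disjoint (A l) (B m) := d1 l m
    have q37 : Disjoint (A l) (B n) := d1 l n
    have q46 : Disjoint Y' (B m) := e (hA.dB 0 m hm.symm) sY (r _)
    have q47 : Disjoint Y' (B n) := e (hA.dB 0 n hn.symm) sY (r _)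
    have q56 : Disjoint Z' (B m) := e (hA.dB 0 m hm.symm) sZ (r _)
    have q57 : Disjoint Z' (B n) := e (hA.dB 0 n hn.symm) sZ (r _)
    have q67 : Disjoint (B m) (B n) := hA.dB m n hmn
    intro a b hab
    fin_cases a <;> fin_cases b <;>
      first
        | exact absurd hab (by decide)
        | assumption
  · intro v
    rw [hA.cov v]
    constructor
    · rintro (⟨x, hx⟩ | ⟨x, hx⟩)
      · rcases all3 hkl hk hl x with rfl | rfl | rfl
        · rcases hPQ.mem hx with h | h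
          · exact ⟨0, h⟩
          · exact ⟨1, h⟩
        · exact ⟨2, hx⟩
        · exact ⟨3, hx⟩
      · rcases all3 hmn hm hn x with rfl | rfl | rfl
        · rcases hYZ.mem hx with h | h
          · exact ⟨4, h⟩
          · exact ⟨5, h⟩
        · exact ⟨6, hx⟩
        · exact ⟨7, hx⟩
    · rintro ⟨a, ha⟩
      fin_cases a
      · exact Or.inl ⟨i, hPQ.subY ha⟩
      · exact Or.inl ⟨i, hPQ.subZ ha⟩
      · exact Or.inl ⟨k, ha⟩
      · exact Or.inl ⟨l, ha⟩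
      · exact Or.inr ⟨0, hYZ.subY ha⟩
      · exact Or.inr ⟨0, hYZ.subZ ha⟩
      · exact Or.inr ⟨m, ha⟩
      · exact Or.inr ⟨n, ha⟩
  · rw [hYZ.un]
    rcases hh1 with ⟨a, b⟩ | ⟨a, b⟩
    · exact Or.inl ⟨a.symm, b.symm⟩
    · exact Or.inr ⟨a.symm, b.symm⟩
  · rw [hPQ.un]
    rcases hh2 with ⟨a, b⟩ | ⟨a, b⟩
    · exact Or.inl ⟨a.symm, b.symm⟩
    · exact Or.inr ⟨a, b.symm⟩

end K5W
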