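import Pool.Agent.Lib.K5W.StepA
import Pool.Agent.Lib.K5W.D8

/-!
# K5W.C7fin: from `C7` to a shredder, an `M8` model or `T8`

Strong induction on `sz A` over all `A, B, Y, Z` with `C7 G U A B Y Z`.
Let `Bip G (A i) P Q`.
(1) `Two G B P` and `Two G B Q`: `d8`.
(2) Otherwise, exchanging `P, Q` (`hb.symm`), `¬ Two G B Q`.  If `Q` touches some `B j`, it touches
    no other `B l`.  `j ≠ 0`: `stepA1` gives a `C7` with `sz (update A i P) < sz A`
    (`sz_update_lt`), induction.  `j = 0`: `stepA0` gives a smaller `C7` (induction) or a `T8`.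
(3) Otherwise for every `i` and every `Bip G (A i) P Q` one of the parts touches no `B j`; with
    `p v := ∀ j, ¬ Tch G (B j) {v}` the lemma `sink` (for `h.k.cA i`) gives `r i ∈ A i`, and
    `shred_of h.k h.indB` gives a `Shred`.
-/

namespace K5W

open Finset P512

variable {V : Type*} [DecidableEq V] {G : SimpleGraph V}

theorem c7_fin {U : Finset V} (h5 : ¬ K5 G) {A B : Fin 3 → Finset V} {Y Z : Finset V}
    (h : C7 G U A B Y Z) :
    (∃ X, Shred G U X) ∨ (∃ X, M8 G U X) ∨ ∃ P B' Q, T8 G U P B' Q := by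
  classical
  obtain ⟨n, hn⟩ : ∃ n, sz A = n := ⟨_, rfl⟩
  induction n using Nat.strong_induction_on generalizing A B Y Z with
  | _ n ih =>
    have step : ∀ (i : Fin 3) (P Q : Finset V), Bip G (A i) P Q → ¬ Two G B Q →
        (∃ j, Tch G (B j) Q) →
        (∃ X, Shred G U X) ∨ (∃ X, M8 G U X) ∨ ∃ P B' Q, T8 G U P B' Q := by
      rintro i P Q hb hQ ⟨j, hj⟩
      have hno : ∀ l, l ≠ j → ¬ Tch G (B l) Q := fun l hl ht => hQ ⟨l, j, hl, ht, hj⟩
      by_cases hj0 : j = 0
      · subst hj0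
        rcases stepA0 h hb hj hno with ⟨A', B', Y', Z', hC, hlt⟩ | hT
        · exact ih (sz A') (hn ▸ hlt) hC rfl
        · exact Or.inr (Or.inr hT)
      · exact ih _ (hn ▸ sz_update_lt hb) (stepA1 h hb hj0 hj hno) rfl
    by_cases hall : ∀ (i : Fin 3) (P Q : Finset V), Bip G (A i) P Q →
        (∀ j, ¬ Tch G (B j) P) ∨ ∀ j, ¬ Tch G (B j) Q
    · left
      have hr : ∀ i, ∃ r ∈ A i, ∀ v ∈ A i, v ≠ r → ∀ j, ¬ Tch G (B j) {v} := fun i =>
        sink (h.k.cA i) (fun v => ∀ j, ¬ Tch G (B j) {v}) (fun P Q hb =>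
          (hall i P Q hb).imp
            (fun hP v hv j ht => hP j (ht.of_subset_right (Finset.singleton_subset_iff.2 hv)))
            (fun hP v hv j ht => hP j (ht.of_subset_right (Finset.singleton_subset_iff.2 hv))))
      choose r hr hrn using hr
      exact shred_of h.k h.indB hr hrn
    · push Not at hall
      obtain ⟨i, P, Q, hb, ⟨j, hj⟩, ⟨l, hl⟩⟩ := hall
      by_cases hQ : Two G B Q
      · by_cases hP : Two G B P
        · exact Or.inr (Or.inl (d8 h5 h hb hP hQ))
        · exact step i Q P hb.symm hP ⟨j, hj⟩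
      · exact step i P Q hb hQ ⟨l, hl⟩

end K5W
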