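import Pool.Agent.Lib.K5W.Beta

/-!
# K5W.StepB: from a spanning `K_{3,3}` model to a shredder or to the configuration `C7`

`stepB`.  (0) By `k5a` one of `Ind G A`, `Ind G B` holds; exchange the sides (`K33.swap`) so that
`Ind G A`.  Strong induction on `sz B`, for all `A, B` with `K33 G U A B` and `Ind G A`.
(1) Let `Bip G (B j) Y Z` be such that `Z` touches exactly one `A i`.  Then `Y` touches the other
    `A k` (`Bip.tch_iff`), `mv` gives a new model `A' = update A i (A i ∪ Z)`,
    `B' = update B j Y`, and `Ind G A'` holds since `Z` touches no `A k`, `k ≠ i`.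
    `sz B' < sz B` (`sz_update_lt`): induction.  The same for `Y` (`hb.symm`).
(2) Let `Bip G (B j) Y Z` be such that `Two G A Y` and `Two G A Z`.  Then `Ind G B` by `beta` and we
    have `C7` after exchanging the indices `0` and `j` (`K33.perm 1 (Equiv.swap 0 j)`).
(3) Otherwise for every `j` and every `Bip G (B j) Y Z` one of the parts touches no `A i`; with
    `p v := ∀ i, ¬ Tch G (A i) {v}` the lemma `sink` gives `r j ∈ B j` such that `p` holds on
    `B j \ {r j}`, and `shred_of` for `h.swap` gives a `Shred`.
-/

namespace K5W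

open Finset P512

variable {V : Type*} [DecidableEq V] {G : SimpleGraph V}

theorem StepBAux.aux {U : Finset V} (h5 : ¬ K5 G) (n : ℕ) : ∀ (A B : Fin 3 → Finset V),
    sz B = n → K33 G U A B → Ind G A →
    (∃ X, Shred G U X) ∨ ∃ A' B' Y Z, C7 G U A' B' Y Z := by
  induction n using Nat.strong_induction_on with
  | _ n ih =>
    intro A B hn h hA
    by_cases c1 : ∃ (j i : Fin 3) (Y Z : Finset V), Bip G (B j) Y Z ∧ Tch G (A i) Z ∧
        ∀ k, k ≠ i → ¬ Tch G (A k) Z
    · obtain ⟨j, i, Y, Z, hb, hi, hk⟩ := c1
      have hY : ∀ k, k ≠ i → Tch G (A k) Y := by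
        intro k hki
        rcases hb.tch_iff.1 (h.adj k j) with h1 | h1
        · exact h1
        · exact absurd h1 (hk k hki)
      have hm := mv h hb hi hY
      refine ih (sz (Function.update B j Y)) (by rw [← hn]; exact sz_update_lt hb) _ _ rfl hm ?_
      intro a b hab ht
      by_cases ha : a = i
      · subst ha
        rw [Function.update_self, Function.update_of_ne (Ne.symm hab), tch_union_left] at ht
        rcases ht with h1 | h1
        · exact hA a b hab h1
        · exact hk b (Ne.symm hab) h1.symm
      · by_cases hb' : b = i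
        · subst hb'
          rw [Function.update_self, Function.update_of_ne hab, tch_union_right] at ht
          rcases ht with h1 | h1
          · exact hA a b hab h1
          · exact hk a hab h1
        · rw [Function.update_of_ne ha, Function.update_of_ne hb'] at ht
          exact hA a b hab ht
    · have two : ∀ (j : Fin 3) (Y Z : Finset V), Bip G (B j) Y Z → (∃ i, Tch G (A i) Z) →
          Two G A Z := by
        rintro j Y Z hb ⟨i, hi⟩
        by_contra hcon
        refine c1 ⟨j, i, Y, Z, hb, hi, fun k hki hk => hcon ⟨i, k, Ne.symm hki, hi, hk⟩⟩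
      by_cases c2 : ∃ (j : Fin 3) (Y Z : Finset V), Bip G (B j) Y Z ∧ Two G A Y ∧ Two G A Z
      · obtain ⟨j, Y, Z, hb, hY, hZ⟩ := c2
        have hB : Ind G B := beta h5 h hb hY hZ
        refine Or.inr ⟨A, fun l => B (Equiv.swap 0 j l), Y, Z, ?_, ?_, hA, ?_, hY, hZ⟩
        · exact h.perm 1 (Equiv.swap 0 j)
        · simpa using hb
        · intro a b hab
          exact hB _ _ (fun he => hab ((Equiv.swap 0 j).injective he))
      · left
        have hs : ∀ j, ∃ r ∈ B j, ∀ v ∈ B j, v ≠ r → ∀ i, ¬ Tch G (A i) {v} := by
          intro j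
          refine sink (h.cB j) (fun v => ∀ i, ¬ Tch G (A i) {v}) (fun Y Z hb => ?_)
          by_contra hcon
          rw [not_or] at hcon
          obtain ⟨h1, h2⟩ := hcon
          push Not at h1 h2
          obtain ⟨v, hv, i, hi⟩ := h1
          obtain ⟨w, hw, k, hk⟩ := h2
          refine c2 ⟨j, Y, Z, hb, two j Z Y hb.symm ⟨i, ?_⟩, two j Y Z hb ⟨k, ?_⟩⟩
          · exact hi.of_subset_right (Finset.singleton_subset_iff.2 hv)
          · exact hk.of_subset_right (Finset.singleton_subset_iff.2 hw)
        choose r hr hn' using hs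
        exact shred_of h.swap hA hr hn'

theorem stepB {U : Finset V} (h5 : ¬ K5 G) {A B : Fin 3 → Finset V} (h : K33 G U A B) :
    (∃ X, Shred G U X) ∨ ∃ A' B' Y Z, C7 G U A' B' Y Z := by
  by_cases hA : Ind G A
  · exact StepBAux.aux h5 _ A B rfl h hA
  · have hB : Ind G B := by
      intro j l hjl hB
      apply hA
      intro i k hik hA'
      exact h5 (k5a h hik hjl hA' hB)
    exact StepBAux.aux h5 _ B A rfl h.swap hB

end K5W
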