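import Pool.Agent.Lib.K5W.Beta

/-!
# K5W.T8fin: the configuration `T8` gives a shredder

Strong induction on `sz P` over all `P, B, Q` with `T8 G U P B Q`.  Let `Bip G (P i) R S`.  Note
that `P i` touches `B 0` only through `Q i` (`uQ`, `nPQ`), so `S ~ B 0` iff `S ~ Q i`; same for `R`.
(1) `S` touches exactly one `B j` and `j ≠ 0`.  Move `S` to `B j`: `P' = update P i R`,
    `B' = update B j (B j ∪ S)`, `Q` unchanged (`mv` for `h.k.swap`; `R` touches `B l`, `l ≠ j`).  `T8`
    holds again: `R ~ Q i` since `S` does not touch `B 0`.  `sz P' < sz P`: induction.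
(2) `S` touches `B 0` and no other `B l`: `P' = update P i R`, `B' = update B 0 (B 0 ∪ S)`,
    `Q' = update Q i (Q i ∪ S)`; `Q i ∪ S` is connected since `S ~ Q i`; `R ~ S` (`Bip.tch`); for
    `k ≠ i`, `P k` touches neither `Q i` nor `S ⊆ P i` (`indP`).  `T8` holds again, `sz` drops.
(1'), (2'): the same with `R` and `S` exchanged (`hb.symm`).
(3) `Two G B R` and `Two G B S`.  Let `k, l` be the other two indices.  The families
    `A' = update (fun m => P m ∪ Q m) i (P i)` and `B' = ![Q i, B 1, B 2]` form a `K33 G U A' B'`
    (`P k ∪ Q k` touches `Q i` by `tQ`).  `R` and `S` both satisfy `Two G B' _`: `B' 0 = Q i`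
    touches `S` iff `B 0` does.  `beta` for `K33.swap` (the split set is `A' i = P i`) gives
    `Ind G A'`, but `A' k ~ A' l` because `Q k ~ Q l`.  Contradiction.
(4) Otherwise every `Bip G (P i) R S` has a part that touches no `B j`: `sink` with
    `p v := ∀ j, ¬ Tch G (B j) {v}` gives `r i ∈ P i` and `shred_of h.k h.indB` gives the `Shred`.
-/

namespace K5W

open Finset P512

variable {V : Type*} [DecidableEq V] {G : SimpleGraph V}

namespace T8finAux

theorem uQ_mem {U : Finset V} {P B Q : Fin 3 → Finset V} (h : T8 G U P B Q) (v : V) :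
    v ∈ B 0 ↔ ∃ i, v ∈ Q i := by
  rw [h.uQ, Finset.mem_union, Finset.mem_union]
  constructor
  · rintro ((h | h) | h)
    · exact ⟨0, h⟩
    · exact ⟨1, h⟩
    · exact ⟨2, h⟩
  · rintro ⟨i, hi⟩
    fin_cases i
    · exact Or.inl (Or.inl hi)
    · exact Or.inl (Or.inr hi)
    · exact Or.inr hi

theorem Q_sub {U : Finset V} {P B Q : Fin 3 → Finset V} (h : T8 G U P B Q) (i : Fin 3) :
    Q i ⊆ B 0 := fun v hv => (uQ_mem h v).2 ⟨i, hv⟩

theorem tch_zero {U : Finset V} {P B Q : Fin 3 → Finset V} (h : T8 G U P B Q) {i : Fin 3}
    {S : Finset V} (hS : S ⊆ P i) : Tch G (B 0) S ↔ Tch G (Q i) S := by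
  constructor
  · rintro ⟨u, hu, v, hv, e⟩
    obtain ⟨k, hk⟩ := (uQ_mem h u).1 hu
    by_cases hki : k = i
    · subst hki
      exact ⟨u, hk, v, hv, e⟩
    · exact absurd ⟨v, hS hv, u, hk, e.symm⟩ (h.nPQ i k (Ne.symm hki))
  · intro ht
    exact ht.mono (Q_sub h i) le_rfl

theorem disj_PQ {U : Finset V} {P B Q : Fin 3 → Finset V} (h : T8 G U P B Q) (i k : Fin 3) :
    Disjoint (P i) (Q k) :=
  Finset.disjoint_of_subset_right (Q_sub h k) (h.k.dAB i 0)

/-- The move of a part that touches exactly one `B j`. -/
theorem step {U : Finset V} {P B Q : Fin 3 → Finset V} (h : T8 G U P B Q) {i j : Fin 3}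
    {R S : Finset V} (hb : Bip G (P i) R S) (hS : Tch G (B j) S)
    (hn : ∀ l, l ≠ j → ¬ Tch G (B l) S) :
    ∃ P' B' Q' : Fin 3 → Finset V, T8 G U P' B' Q' ∧ sz P' < sz P := by
  have hR : ∀ l, l ≠ j → Tch G (B l) R := by
    intro l hl
    rcases hb.tch_iff.1 (h.k.adj i l).symm with h1 | h1
    · exact h1
    · exact absurd h1 (hn l hl)
  have hK := (mv h.k.swap hb hS hR).swap
  have hsub : ∀ a, Function.update P i R a ⊆ P a := by
    intro a
    by_cases ha : a = i
    · subst ha
      rw [Function.update_self]
      exact hb.subY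
    · rw [Function.update_of_ne ha]
  have hind : Ind G (Function.update P i R) := h.indP.mono hsub
  have hindB : Ind G (Function.update B j (B j ∪ S)) := by
    intro a c hac ht
    by_cases ha : a = j
    · subst ha
      rw [Function.update_self, Function.update_of_ne (Ne.symm hac), tch_union_left] at ht
      rcases ht with ht | ht
      · exact h.indB _ _ hac ht
      · exact hn c (Ne.symm hac) ht.symm
    · by_cases hc : c = j
      · subst hc
        rw [Function.update_self, Function.update_of_ne ha, tch_union_right] at ht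
        rcases ht with ht | ht
        · exact h.indB _ _ hac ht
        · exact hn a ha ht
      · rw [Function.update_of_ne ha, Function.update_of_ne hc] at ht
        exact h.indB _ _ hac ht
  by_cases hj : j = 0
  · subst hj
    have hQS : Tch G (Q i) S := (tch_zero h hb.subZ).1 hS
    refine ⟨Function.update P i R, Function.update B 0 (B 0 ∪ S),
      Function.update Q i (Q i ∪ S), ⟨hK, ?_, ?_, ?_, ?_, ?_, ?_, hind, hindB⟩, sz_update_lt hb⟩
    · intro a
      by_cases ha : a = i
      · subst ha
        rw [Function.update_self]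
        exact conn_un (h.cQ _) hb.cZ hQS
      · rw [Function.update_of_ne ha]
        exact h.cQ a
    · have key : ∀ c, Disjoint S (Q c) := fun c =>
        Finset.disjoint_of_subset_left hb.subZ (disj_PQ h i c)
      intro a c hac
      by_cases ha : a = i
      · subst ha
        rw [Function.update_self, Function.update_of_ne (Ne.symm hac),
          Finset.disjoint_union_left]
        exact ⟨h.dQ _ _ hac, key c⟩
      · by_cases hc : c = i
        · subst hc
          rw [Function.update_self, Function.update_of_ne ha, Finset.disjoint_union_right]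
          exact ⟨h.dQ _ _ hac, (key a).symm⟩
        · rw [Function.update_of_ne ha, Function.update_of_ne hc]
          exact h.dQ _ _ hac
    · rw [Function.update_self, h.uQ]
      ext v
      fin_cases i <;> simp [Function.update] <;> tauto
    · intro a c hac
      have hmono : ∀ b, Q b ⊆ Function.update Q i (Q i ∪ S) b := by
        intro b
        by_cases hb' : b = i
        · subst hb'
          rw [Function.update_self]
          exact Finset.subset_union_left
        · rw [Function.update_of_ne hb']
      exact (h.tQ a c hac).mono (hmono a) (hmono c)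
    · intro a
      by_cases ha : a = i
      · subst ha
        rw [Function.update_self, Function.update_self, tch_union_right]
        exact Or.inr (hb.tch (h.k.cA _))
      · rw [Function.update_of_ne ha, Function.update_of_ne ha]
        exact h.tPQ a
    · intro a c hac ht
      have ht1 : Tch G (P a) (Function.update Q i (Q i ∪ S) c) := ht.mono (hsub a) le_rfl
      by_cases hc : c = i
      · subst hc
        rw [Function.update_self, tch_union_right] at ht1
        rcases ht1 with h1 | h1
        · exact h.nPQ _ _ hac h1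
        · exact h.indP _ _ hac (h1.mono le_rfl hb.subZ)
      · rw [Function.update_of_ne hc] at ht1
        exact h.nPQ _ _ hac ht1
  · refine ⟨Function.update P i R, Function.update B j (B j ∪ S), Q,
      ⟨hK, h.cQ, h.dQ, ?_, h.tQ, ?_, ?_, hind, hindB⟩, sz_update_lt hb⟩
    · rw [Function.update_of_ne (Ne.symm hj)]
      exact h.uQ
    · intro a
      by_cases ha : a = i
      · subst ha
        rw [Function.update_self]
        rcases hb.tch_iff.1 (h.tPQ _).symm with h1 | h1
        · exact h1.symm
        · exact absurd ((tch_zero h hb.subZ).2 h1) (hn 0 (Ne.symm hj))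
      · rw [Function.update_of_ne ha]
        exact h.tPQ a
    · intro a c hac ht
      exact h.nPQ a c hac (ht.mono (hsub a) le_rfl)

theorem k33' {U : Finset V} {P B Q : Fin 3 → Finset V} (h : T8 G U P B Q) (i : Fin 3) :
    K33 G U (fun m => if m = i then P i else P m ∪ Q m) (fun j => if j = 0 then Q i else B j) := by
  have hsubA : ∀ m, (if m = i then P i else P m ∪ Q m) ⊆ P m ∪ Q m := by
    intro m
    by_cases hm : m = i
    · subst hm
      rw [if_pos rfl]
      exact Finset.subset_union_left
    · rw [if_neg hm]
  have hsubB : ∀ j, (if j = 0 then Q i else B j) ⊆ B j := by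
    intro j
    by_cases hj : j = 0
    · subst hj
      rw [if_pos rfl]
      exact Q_sub h i
    · rw [if_neg hj]
  refine ⟨?_, ?_, ?_, ?_, ?_, ?_, ?_⟩
  · intro m
    by_cases hm : m = i
    · simp only [if_pos hm]
      exact h.k.cA i
    · simp only [if_neg hm]
      exact conn_un (h.k.cA m) (h.cQ m) (h.tPQ m)
  · intro j
    by_cases hj : j = 0
    · simp only [if_pos hj]
      exact h.cQ i
    · simp only [if_neg hj]
      exact h.k.cB j
  · intro m n hmn
    refine Finset.disjoint_of_subset_left (hsubA m) (Finset.disjoint_of_subset_right (hsubA n) ?_)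
    simp only [Finset.disjoint_union_left, Finset.disjoint_union_right]
    exact ⟨⟨h.k.dA m n hmn, (disj_PQ h n m).symm⟩, disj_PQ h m n, h.dQ m n hmn⟩
  · intro j l hjl
    exact Finset.disjoint_of_subset_left (hsubB j)
      (Finset.disjoint_of_subset_right (hsubB l) (h.k.dB j l hjl))
  · intro m j
    by_cases hj : j = 0
    · simp only [if_pos hj]
      by_cases hm : m = i
      · simp only [if_pos hm]
        exact disj_PQ h i i
      · simp only [if_neg hm, Finset.disjoint_union_left]
        exact ⟨disj_PQ h m i, h.dQ m i hm⟩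
    · simp only [if_neg hj]
      refine Finset.disjoint_of_subset_left (hsubA m) ?_
      rw [Finset.disjoint_union_left]
      exact ⟨h.k.dAB m j, Finset.disjoint_of_subset_left (Q_sub h m) (h.k.dB 0 j (Ne.symm hj))⟩
  · intro m j
    have hPsub : P m ⊆ if m = i then P i else P m ∪ Q m := by
      by_cases hm : m = i
      · subst hm
        rw [if_pos rfl]
      · rw [if_neg hm]
        exact Finset.subset_union_left
    by_cases hj : j = 0
    · simp only [if_pos hj]
      by_cases hm : m = i
      · simp only [if_pos hm]
        exact h.tPQ i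
      · simp only [if_neg hm, tch_union_left]
        exact Or.inr (h.tQ m i hm)
    · simp only [if_neg hj]
      exact (h.k.adj m j).mono hPsub le_rfl
  · intro v
    rw [h.k.cov v]
    constructor
    · rintro (⟨m, hm⟩ | ⟨j, hj⟩)
      · left
        refine ⟨m, ?_⟩
        by_cases hmi : m = i
        · subst hmi
          simpa using hm
        · simp only [if_neg hmi, Finset.mem_union]
          exact Or.inl hm
      · by_cases hj0 : j = 0
        · subst hj0
          obtain ⟨k, hk⟩ := (uQ_mem h v).1 hj
          by_cases hki : k = i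
          · subst hki
            exact Or.inr ⟨0, by simpa using hk⟩
          · refine Or.inl ⟨k, ?_⟩
            simp only [if_neg hki, Finset.mem_union]
            exact Or.inr hk
        · refine Or.inr ⟨j, ?_⟩
          simpa only [if_neg hj0] using hj
    · rintro (⟨m, hm⟩ | ⟨j, hj⟩)
      · rcases Finset.mem_union.1 (hsubA m hm) with h1 | h1
        · exact Or.inl ⟨m, h1⟩
        · exact Or.inr ⟨0, Q_sub h m h1⟩
      · exact Or.inr ⟨j, hsubB j hj⟩

theorem two_of {U : Finset V} {P B Q : Fin 3 → Finset V} (h : T8 G U P B Q) {i : Fin 3}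
    {S : Finset V} (hS : S ⊆ P i) (ht : Two G B S) :
    Two G (fun j => if j = 0 then Q i else B j) S := by
  have key : ∀ j, Tch G (B j) S → Tch G (if j = 0 then Q i else B j) S := by
    intro j hj
    by_cases hj0 : j = 0
    · subst hj0
      simp only [if_pos]
      exact (tch_zero h hS).1 hj
    · simpa only [if_neg hj0] using hj
  obtain ⟨a, c, hac, h1, h2⟩ := ht
  exact ⟨a, c, hac, key a h1, key c h2⟩

theorem three {U : Finset V} (h5 : ¬ K5 G) {P B Q : Fin 3 → Finset V} (h : T8 G U P B Q)
    {i : Fin 3} {R S : Finset V} (hb : Bip G (P i) R S) (hR : Two G B R) (hS : Two G B S) :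
    False := by
  have hK := k33' h i
  have hb' : Bip G ((fun m => if m = i then P i else P m ∪ Q m) i) R S := by
    simpa using hb
  have hI := beta h5 hK.swap hb' (two_of h hb.subY hR) (two_of h hb.subZ hS)
  obtain ⟨k, l, hk, hl, hkl⟩ : ∃ k l : Fin 3, k ≠ i ∧ l ≠ i ∧ k ≠ l := by
    have key : ∀ i : Fin 3, ∃ k l : Fin 3, k ≠ i ∧ l ≠ i ∧ k ≠ l := by decide
    exact key i
  refine hI k l hkl ?_
  simp only [if_neg hk, if_neg hl]
  exact (h.tQ k l hkl).mono Finset.subset_union_right Finset.subset_union_right

end T8finAux

open T8finAux in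
theorem t8_fin {U : Finset V} (h5 : ¬ K5 G) {P B Q : Fin 3 → Finset V} (h : T8 G U P B Q) :
    ∃ X, Shred G U X := by
  obtain ⟨n, hn⟩ : ∃ n, sz P = n := ⟨_, rfl⟩
  induction n using Nat.strong_induction_on generalizing P B Q with
  | _ n ih =>
    by_cases hA : ∃ (i j : Fin 3) (R S : Finset V), Bip G (P i) R S ∧ Tch G (B j) S ∧
        ∀ l, l ≠ j → ¬ Tch G (B l) S
    · obtain ⟨i, j, R, S, hb, hS, hl⟩ := hA
      obtain ⟨P', B', Q', h', hlt⟩ := step h hb hS hl
      exact ih (sz P') (hn ▸ hlt) h' rfl
    · have htwo : ∀ (i : Fin 3) (R S : Finset V), Bip G (P i) R S → ∀ j, Tch G (B j) S →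
          Two G B S := by
        intro i R S hb j hj
        by_contra hcon
        refine hA ⟨i, j, R, S, hb, hj, fun l hl ht => hcon ⟨l, j, hl, ht, hj⟩⟩
      have hsink : ∀ i, ∃ r ∈ P i, ∀ v ∈ P i, v ≠ r → ∀ j, ¬ Tch G (B j) {v} := by
        intro i
        refine sink (h.k.cA i) (fun v => ∀ j, ¬ Tch G (B j) {v}) (fun R S hb => ?_)
        by_cases hS : ∃ j, Tch G (B j) S
        · by_cases hR : ∃ j, Tch G (B j) R
          · exfalso
            obtain ⟨j, hj⟩ := hS
            obtain ⟨l, hl⟩ := hR
            exact three h5 h hb (htwo i S R hb.symm l hl) (htwo i R S hb j hj)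
          · left
            intro v hv j ht
            exact hR ⟨j, ht.mono le_rfl (Finset.singleton_subset_iff.2 hv)⟩
        · right
          intro v hv j ht
          exact hS ⟨j, ht.mono le_rfl (Finset.singleton_subset_iff.2 hv)⟩
      choose r hr1 hr2 using hsink
      exact shred_of h.k h.indB hr1 hr2

end K5W
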