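import Pool.Agent.Lib.K5W.Ext
import Pool.Agent.Lib.K5W.StepB
import Pool.Agent.Lib.K5W.C7fin
import Pool.Agent.Lib.K5W.T8fin

/-!
# K5W.W2: a connected graph with a `K_{3,3}` minor and without `K_5` minor has a 3-shredder or a
spanning `V_8` model
-/

namespace K5W

open Finset P512

variable {V : Type*} [DecidableEq V] {G : SimpleGraph V}

theorem w2_span {U : Finset V} (h5 : ¬ K5 G) {A B : Fin 3 → Finset V} (h : K33 G U A B) :
    (∃ X, Shred G U X) ∨ ∃ X, M8 G U X := by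
  rcases stepB h5 h with h1 | ⟨A', B', Y, Z, h1⟩
  · exact Or.inl h1
  · rcases c7_fin h5 h1 with h2 | h2 | ⟨P, B'', Q, h2⟩
    · exact Or.inl h2
    · exact Or.inr h2
    · exact Or.inl (t8_fin h5 h2)

theorem w2 {U : Finset V} (hU : Conn G U) (h5 : ¬ K5 G) (A B : Fin 3 → Finset V)
    (cA : ∀ i, Conn G (A i)) (cB : ∀ j, Conn G (B j))
    (dA : ∀ i k, i ≠ k → Disjoint (A i) (A k)) (dB : ∀ j l, j ≠ l → Disjoint (B j) (B l))
    (dAB : ∀ i j, Disjoint (A i) (B j)) (adj : ∀ i j, Tch G (A i) (B j))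
    (sA : ∀ i, A i ⊆ U) (sB : ∀ j, B j ⊆ U) : (∃ X, Shred G U X) ∨ ∃ X, M8 G U X := by
  obtain ⟨Y, h1, h2, h3, h4⟩ := extend hU (Sum.elim A B) (by
      rintro (i | j)
      · exact cA i
      · exact cB j) (by
      rintro (i | i) (j | j) hij
      · exact dA i j (fun h => hij (by rw [h]))
      · exact dAB i j
      · exact (dAB j i).symm
      · exact dB i j (fun h => hij (by rw [h]))) (by
      rintro (i | j)
      · exact sA i
      · exact sB j)
  refine w2_span (A := fun i => Y (Sum.inl i)) (B := fun j => Y (Sum.inr j)) h5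
    ⟨fun i => h2 _, fun j => h2 _, fun i k hik => h3 _ _ (fun h => hik (Sum.inl.inj h)),
      fun j l hjl => h3 _ _ (fun h => hjl (Sum.inr.inj h)),
      fun i j => h3 _ _ (by simp), fun i j => (adj i j).mono (h1 (Sum.inl i)) (h1 (Sum.inr j)),
      fun v => ?_⟩
  rw [h4 v]
  constructor
  · rintro ⟨i | j, h⟩
    · exact Or.inl ⟨i, h⟩
    · exact Or.inr ⟨j, h⟩
  · rintro (⟨i, h⟩ | ⟨j, h⟩)
    · exact ⟨_, h⟩
    · exact ⟨_, h⟩

end K5W
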