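import Pool.Agent.Lib.K5.Kuratowski
import Pool.Agent.Lib.K5W.W1
import Pool.Agent.Lib.K5W.W2

/-!
# K5W.Wag: Wagner's theorem for 3-connected graphs without a 3-shredder

A 3-connected graph without a `K_5` minor and without a shredder (a set of three vertices whose
deletion leaves at least three components) is planar (Mac Lane's form) or the Wagner graph `V_8`.
-/

namespace K5

open Finset

theorem conn_sub_on {G : Gr} {U : Finset ℕ} (hOn : On G U) {S : Finset ℕ} (hS : P512.Conn G S)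
    {a b : ℕ} (ha : a ∈ S) (hab : G.Adj a b) : S ⊆ U :=
  P512.conn_subset (X := ∅) hS (fun u _ v huv => Or.inl (hOn v u huv.symm))
    (fun v _ => Finset.notMem_empty v) ⟨a, ha, hOn a b hab⟩

theorem shr_of_shred {G : Gr} {U X : Finset ℕ} (h : K5W.Shred G U X) : Shr G U X := by
  obtain ⟨h1, h2, P, h3, h4⟩ := h
  have key : ∀ i, ∃ C, C ⊆ P i ∧ IsComp G (U \ X) C := by
    intro i
    obtain ⟨a, ha⟩ := (h3 i).1
    obtain ⟨K, k1, k2, k3, k4⟩ := K5W.exists_comp (G := G) (X := U \ X) ((h3 i).2.1 ha)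
    refine ⟨K, ?_, k2, k3, fun u hu v hv hvK huv => hvK (k4 u hu v hv huv)⟩
    by_contra hcon
    obtain ⟨u, hu, v, hv, hvn, hadj⟩ := k3.2 (K ∩ P i) Finset.inter_subset_left
      ⟨a, Finset.mem_inter.2 ⟨k1, ha⟩⟩ (fun he => hcon (by
        intro x hx
        rw [← he] at hx
        exact (Finset.mem_inter.1 hx).2))
    exact hvn (Finset.mem_inter.2 ⟨hv, (h3 i).2.2 u (Finset.mem_inter.1 hu).2 v (k2 hv) hadj⟩)
  choose C hC hcomp using key
  exact ⟨h1, h2, C 0, C 1, C 2, hcomp 0, hcomp 1, hcomp 2,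
    Finset.disjoint_of_subset_left (hC 0) (Finset.disjoint_of_subset_right (hC 1)
      (h4 0 1 (by decide))),
    Finset.disjoint_of_subset_left (hC 0) (Finset.disjoint_of_subset_right (hC 2)
      (h4 0 2 (by decide))),
    Finset.disjoint_of_subset_left (hC 1) (Finset.disjoint_of_subset_right (hC 2)
      (h4 1 2 (by decide)))⟩

theorem v8_iff (i j : Fin 8) :
    K5W.v8 i j = true ↔ (j = i + 1 ∨ i = j + 1 ∨ j = i + 4) := by
  unfold K5W.v8
  exact decide_eq_true_iff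

theorem isV8_of {G : Gr} {U : Finset ℕ} (hOn : On G U) (h : K5W.IsV8 G U) : IsV8 G U := by
  obtain ⟨f, hinj, hU, hadj⟩ := h
  refine ⟨f, hinj, ?_, fun a b => ⟨fun hab => ?_, ?_⟩⟩
  · ext v
    rw [hU v]
    constructor
    · rintro ⟨i, hi⟩
      exact Finset.mem_image.2 ⟨i, Finset.mem_univ _, hi⟩
    · intro hv
      obtain ⟨i, _, hi⟩ := Finset.mem_image.1 hv
      exact ⟨i, hi⟩
  · obtain ⟨i, hi⟩ := (hU a).1 (hOn a b hab)
    obtain ⟨j, hj⟩ := (hU b).1 (hOn b a hab.symm)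
    subst hi
    subst hj
    refine ⟨i, j, rfl, rfl, ?_⟩
    exact (v8_iff i j).1 ((hadj i j).1 hab)
  · rintro ⟨i, j, rfl, rfl, hij⟩
    exact (hadj i j).2 ((v8_iff i j).2 hij)

theorem wagner (H : Gr) (Z : Finset ℕ) (hOn : On H Z) (h3 : Three H Z) (hf : Free H)
    (hs : ¬ ∃ X, Shr H Z X) : Mac H Z ∨ IsV8 H Z := by
  by_cases hk : K33 H
  · right
    have hT : K5W.Thr H Z := h3
    obtain ⟨A, B, cA, cB, dA, dB, dAB, adj⟩ := hk
    have sA : ∀ i, A i ⊆ Z := fun i => by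
      obtain ⟨a, ha, b, hb, hab⟩ := adj i 0
      exact conn_sub_on hOn (cA i) ha hab
    have sB : ∀ j, B j ⊆ Z := fun j => by
      obtain ⟨a, ha, b, hb, hab⟩ := adj 0 j
      exact conn_sub_on hOn (cB j) hb hab.symm
    rcases K5W.w2 hT.conn hf A B cA cB dA dB dAB adj sA sB with ⟨X, hX⟩ | ⟨X, hX⟩
    · exact absurd ⟨X, shr_of_shred hX⟩ hs
    · exact isV8_of hOn (K5W.w1 hT hf hX)
  · exact Or.inl (kuratowski hOn h3 hf hk)

end K5
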