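import Pool.Agent.Lib.K5W.Defs

/-!
# K5W.Bas: elementary facts on `Tch`, `Bip` and connected sets
-/

namespace K5W

open Finset P512

variable {V : Type*} [DecidableEq V] {G : SimpleGraph V}

theorem Tch.symm {S T : Finset V} (h : Tch G S T) : Tch G T S := by
  obtain ⟨u, hu, v, hv, e⟩ := h
  exact ⟨v, hv, u, hu, e.symm⟩

theorem tch_comm {S T : Finset V} : Tch G S T ↔ Tch G T S := ⟨Tch.symm, Tch.symm⟩

theorem Tch.mono {S T S' T' : Finset V} (h : Tch G S T) (hS : S ⊆ S') (hT : T ⊆ T') :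
    Tch G S' T' := by
  obtain ⟨u, hu, v, hv, e⟩ := h
  exact ⟨u, hS hu, v, hT hv, e⟩

theorem tch_union_left {S T R : Finset V} : Tch G (S ∪ T) R ↔ Tch G S R ∨ Tch G T R := by
  constructor
  · rintro ⟨u, hu, v, hv, e⟩
    rcases Finset.mem_union.1 hu with h | h
    · exact Or.inl ⟨u, h, v, hv, e⟩
    · exact Or.inr ⟨u, h, v, hv, e⟩
  · rintro (h | h)
    · exact h.mono Finset.subset_union_left le_rfl
    · exact h.mono Finset.subset_union_right le_rfl

theorem tch_union_right {S T R : Finset V} : Tch G R (S ∪ T) ↔ Tch G R S ∨ Tch G R T := by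
  rw [tch_comm, tch_union_left, tch_comm (S := S), tch_comm (S := T)]

theorem conn_un {S T : Finset V} (h1 : Conn G S) (h2 : Conn G T) (h : Tch G S T) :
    Conn G (S ∪ T) := by
  obtain ⟨u, hu, v, hv, e⟩ := h
  exact conn_union h1 h2 (Or.inr ⟨u, hu, v, hv, e⟩)

theorem Bip.symm {X Y Z : Finset V} (h : Bip G X Y Z) : Bip G X Z Y :=
  ⟨h.cZ, h.cY, h.dj.symm, by rw [Finset.union_comm]; exact h.un⟩

theorem Bip.subY {X Y Z : Finset V} (h : Bip G X Y Z) : Y ⊆ X := by
  rw [← h.un]; exact Finset.subset_union_left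

theorem Bip.subZ {X Y Z : Finset V} (h : Bip G X Y Z) : Z ⊆ X := h.symm.subY

theorem Bip.mem {X Y Z : Finset V} (h : Bip G X Y Z) {v : V} (hv : v ∈ X) : v ∈ Y ∨ v ∈ Z := by
  rw [← h.un] at hv; exact Finset.mem_union.1 hv

/-- The two parts of a connected set touch. -/
theorem Bip.tch {X Y Z : Finset V} (h : Bip G X Y Z) (hX : Conn G X) : Tch G Y Z := by
  obtain ⟨u, hu, v, hv, hvn, e⟩ := hX.2 Y h.subY h.cY.1 (fun he => by
    obtain ⟨z, hz⟩ := h.cZ.1
    have : z ∈ Y := by rw [he]; exact h.subZ hz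
    exact (Finset.disjoint_left.1 h.dj this) hz)
  refine ⟨u, hu, v, ?_, e⟩
  rcases h.mem hv with h1 | h1
  · exact absurd h1 hvn
  · exact h1

theorem Bip.tch_iff {X Y Z R : Finset V} (h : Bip G X Y Z) : Tch G R X ↔ Tch G R Y ∨ Tch G R Z := by
  rw [← h.un, tch_union_right]

theorem Bip.card {X Y Z : Finset V} (h : Bip G X Y Z) : X.card = Y.card + Z.card := by
  rw [← h.un, Finset.card_union_of_disjoint h.dj]

/-- The complement of a component of `X - r` is connected. -/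
theorem bip_comp {X K : Finset V} {r : V} (hX : Conn G X) (hr : r ∈ X) (hK : K ⊆ X.erase r)
    (cK : Conn G K) (hc : ∀ u ∈ K, ∀ v ∈ X.erase r, G.Adj u v → v ∈ K) : Bip G X K (X \ K) := by
  have hKX : K ⊆ X := hK.trans (Finset.erase_subset _ _)
  have hrK : r ∉ K := fun h => Finset.notMem_erase r X (hK h)
  refine ⟨cK, ?_, Finset.disjoint_sdiff, Finset.union_sdiff_of_subset hKX⟩
  refine conn_of_forall (r := r) (Finset.mem_sdiff.2 ⟨hr, hrK⟩) (fun P hP hrP hne => ?_)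
  obtain ⟨w, hw, hwP⟩ : ∃ w ∈ X \ K, w ∉ P := by
    by_contra hcon
    push Not at hcon
    exact hne (le_antisymm hP hcon)
  have hw' := Finset.mem_sdiff.1 hw
  obtain ⟨u, hu, v, hv, hvn, e⟩ := hX.2 (P ∪ K) (Finset.union_subset (hP.trans
    Finset.sdiff_subset) hKX) ⟨r, Finset.mem_union_left _ hrP⟩ (fun he => by
      have : w ∈ P ∪ K := by rw [he]; exact hw'.1
      rcases Finset.mem_union.1 this with h | h
      · exact hwP h
      · exact hw'.2 h)
  have hvP : v ∉ P := fun h => hvn (Finset.mem_union_left _ h)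
  have hvK : v ∉ K := fun h => hvn (Finset.mem_union_right _ h)
  rcases Finset.mem_union.1 hu with h | h
  · exact ⟨u, h, v, Finset.mem_sdiff.2 ⟨hv, hvK⟩, hvP, e⟩
  · exfalso
    refine hvK (hc u h v (Finset.mem_erase.2 ⟨?_, hv⟩) e)
    rintro rfl
    exact hvP hrP

/-- A vertex of `X - r` lies in a component of `X - r`. -/
theorem exists_comp {X : Finset V} {a : V} (ha : a ∈ X) : ∃ K, a ∈ K ∧ K ⊆ X ∧ Conn G K ∧
    ∀ u ∈ K, ∀ v ∈ X, G.Adj u v → v ∈ K := by
  obtain ⟨K, h1, h2, h3, h4⟩ := hull G {a} X (conn_singleton G a)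
    (Finset.singleton_subset_iff.2 ha)
  exact ⟨K, Finset.singleton_subset_iff.1 h1, h2, h3, h4⟩

/-- Two vertices of a connected set are separated by a partition into two connected sets. -/
theorem exists_bip {X : Finset V} (hX : Conn G X) {a b : V} (ha : a ∈ X) (hb : b ∈ X)
    (hab : a ≠ b) : ∃ Y Z, Bip G X Y Z ∧ a ∈ Y ∧ b ∈ Z := by
  obtain ⟨K, h1, h2, h3, h4⟩ := exists_comp (G := G) (X := X.erase b) (a := a)
    (Finset.mem_erase.2 ⟨hab, ha⟩)
  refine ⟨K, X \ K, bip_comp hX hb h2 h3 h4, h1, Finset.mem_sdiff.2 ⟨hb, fun h => ?_⟩⟩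
  exact Finset.notMem_erase b X (h2 h)

/-- If every partition of `X` into two connected sets has a part on which `p` holds, then `p` holds
at all vertices of `X` but one. -/
theorem sink {X : Finset V} (hX : Conn G X) (p : V → Prop)
    (h : ∀ Y Z, Bip G X Y Z → (∀ v ∈ Y, p v) ∨ ∀ v ∈ Z, p v) :
    ∃ r ∈ X, ∀ v ∈ X, v ≠ r → p v := by
  by_contra hcon
  push Not at hcon
  obtain ⟨r0, hr0⟩ := hX.1
  obtain ⟨a, ha, -, hpa⟩ := hcon r0 hr0
  obtain ⟨b, hb, hba, hpb⟩ := hcon a ha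
  obtain ⟨Y, Z, hb', haY, hbZ⟩ := exists_bip hX ha hb hba.symm
  rcases h Y Z hb' with h1 | h1
  · exact hpa (h1 a haY)
  · exact hpb (h1 b hbZ)

theorem K33.swap {U : Finset V} {A B : Fin 3 → Finset V} (h : K33 G U A B) : K33 G U B A :=
  ⟨h.cB, h.cA, h.dB, h.dA, fun i j => (h.dAB j i).symm, fun i j => (h.adj j i).symm,
    fun v => by rw [h.cov v, or_comm]⟩

theorem Tch.of_subset_right {S T T' : Finset V} (h : Tch G S T) (hT : T ⊆ T') : Tch G S T' :=
  h.mono le_rfl hT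

theorem Ind.mono {A A' : Fin 3 → Finset V} (h : Ind G A) (hs : ∀ i, A' i ⊆ A i) : Ind G A' :=
  fun i k hik ht => h i k hik (ht.mono (hs i) (hs k))

end K5W
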