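import Pool.Agent.Lib.K5W.Mv

/-!
# K5W.Beta: a split of `B j` in which both parts touch two of the `A i`

`two_pair`.  Every `A i` touches `Y` or `Z` (`Bip.tch_iff`, `h.adj i j`), at least two of them touch
`Y` and at least two touch `Z`.  With `p i = Tch G (A i) Y`, `q i = Tch G (A i) Z` this is a statement
on subsets of `Fin 3`: there are distinct `x, y, z` with `p x, p y, q y, q z` (if the two pairs
are equal, the third index is in one of the two sets; exchange one element; 64 cases).

`beta`.  Suppose `¬ Ind G B`.  Let `l, m` be the two indices `≠ j`.  Take `x, y, z` from `two_pair`.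
(1) If `B l` touches `B m`: the sets `A y, B l, B m, A x ∪ Y, A z ∪ Z` form a `K_5` model
    (`Y` touches `Z` by `Bip.tch`; all `A` touch `B l` and `B m`).
(2) If `B l` (`l ≠ j`) touches `Y`: the sets `A y, Y, B l, A x ∪ B m, A z ∪ Z` form a `K_5` model.
(3) If `B l` (`l ≠ j`) touches `Z`: the sets `A y, Z, B l, A z ∪ B m, A x ∪ Y` form a `K_5` model
    (case (2) for `hb.symm`).
`B l` touches `B j` iff it touches `Y` or `Z` (`Bip.tch_iff`).  A convenient way is `k5_q` for the
family `![A x, A y, A z, Y, Z, B l, B m] : Fin 7 → Finset V` and the relation `rel L` of the list of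
its edges, `Good` by `decide`.
-/

namespace K5W

open Finset P512

variable {V : Type*} [DecidableEq V] {G : SimpleGraph V}

theorem BetaAux.bool3 : ∀ p q : Fin 3 → Bool, (∀ i, p i = true ∨ q i = true) →
    (∃ i k, i ≠ k ∧ p i = true ∧ p k = true) → (∃ i k, i ≠ k ∧ q i = true ∧ q k = true) →
    ∃ x y z : Fin 3, x ≠ y ∧ x ≠ z ∧ y ≠ z ∧ p x = true ∧ p y = true ∧ q y = true ∧
      q z = true := by
  decide

theorem BetaAux.third : ∀ j l : Fin 3, l ≠ j → ∃ m : Fin 3, m ≠ j ∧ m ≠ l := by decide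

theorem two_pair {U : Finset V} {A B : Fin 3 → Finset V} (h : K33 G U A B) {j : Fin 3}
    {Y Z : Finset V} (hb : Bip G (B j) Y Z) (hY : Two G A Y) (hZ : Two G A Z) :
    ∃ x y z : Fin 3, x ≠ y ∧ x ≠ z ∧ y ≠ z ∧ Tch G (A x) Y ∧ Tch G (A y) Y ∧ Tch G (A y) Z ∧
      Tch G (A z) Z := by
  classical
  obtain ⟨x, y, z, h1, h2, h3, h4, h5, h6, h7⟩ := BetaAux.bool3
    (fun i => decide (Tch G (A i) Y)) (fun i => decide (Tch G (A i) Z))
    (fun i => by simpa using hb.tch_iff.1 (h.adj i j))
    (by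
      obtain ⟨i, k, hik, h1, h2⟩ := hY
      exact ⟨i, k, hik, by simpa using h1, by simpa using h2⟩)
    (by
      obtain ⟨i, k, hik, h1, h2⟩ := hZ
      exact ⟨i, k, hik, by simpa using h1, by simpa using h2⟩)
  exact ⟨x, y, z, h1, h2, h3, by simpa using h4, by simpa using h5, by simpa using h6,
    by simpa using h7⟩

theorem BetaAux.seven {S : Fin 7 → Finset V}
    (h : ∀ i j : Fin 7, i < j → Disjoint (S i) (S j)) (i j : Fin 7) (hij : i ≠ j) :
    Disjoint (S i) (S j) := by
  rcases lt_or_gt_of_ne hij with h1 | h1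
  · exact h i j h1
  · exact (h j i h1).symm

/-- The common part of the three cases: a further edge `e` of the family of seven sets and a
good quotient give a `K_5` model. -/
theorem BetaAux.core {U : Finset V} {A B : Fin 3 → Finset V} (h : K33 G U A B) {j l m : Fin 3}
    {Y Z : Finset V} (hb : Bip G (B j) Y Z) (hl : l ≠ j) (hm : m ≠ j) (hlm : l ≠ m)
    {x y z : Fin 3} (hxy : x ≠ y) (hxz : x ≠ z) (hyz : y ≠ z) (h1 : Tch G (A x) Y)
    (h2 : Tch G (A y) Y) (h3 : Tch G (A y) Z) (h4 : Tch G (A z) Z) (e : Fin 7 × Fin 7)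
    (he : Tch G (![A x, A y, A z, Y, Z, B l, B m] e.1) (![A x, A y, A z, Y, Z, B l, B m] e.2))
    (p : Fin 5 → Fin 7 × Fin 7)
    (hp : Good (rel (e :: [(0, 3), (1, 3), (1, 4), (2, 4), (3, 4), (0, 5), (0, 6), (1, 5),
      (1, 6), (2, 5), (2, 6)])) p) : K5 G := by
  have dY : ∀ i, Disjoint (A i) Y := fun i => Finset.disjoint_of_subset_right hb.subY (h.dAB i j)
  have dZ : ∀ i, Disjoint (A i) Z := fun i => Finset.disjoint_of_subset_right hb.subZ (h.dAB i j)
  have bY : ∀ i, i ≠ j → Disjoint Y (B i) := fun i hi =>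
    (Finset.disjoint_of_subset_right hb.subY (h.dB i j hi)).symm
  have bZ : ∀ i, i ≠ j → Disjoint Z (B i) := fun i hi =>
    (Finset.disjoint_of_subset_right hb.subZ (h.dB i j hi)).symm
  refine k5_q (![A x, A y, A z, Y, Z, B l, B m]) ?_ (BetaAux.seven ?_) _ (rel_tch ?_) p hp
  · intro i
    fin_cases i
    · exact h.cA x
    · exact h.cA y
    · exact h.cA z
    · exact hb.cY
    · exact hb.cZ
    · exact h.cB l
    · exact h.cB m
  · intro a b hab
    fin_cases a <;> fin_cases b <;> first
      | exact absurd hab (by decide)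
      | exact h.dA x y hxy
      | exact h.dA x z hxz
      | exact h.dA y z hyz
      | exact dY _
      | exact dZ _
      | exact h.dAB _ _
      | exact hb.dj
      | exact bY _ hl
      | exact bY _ hm
      | exact bZ _ hl
      | exact bZ _ hm
      | exact h.dB _ _ hlm
  · intro f hf
    simp only [List.mem_cons, List.not_mem_nil, or_false] at hf
    rcases hf with rfl | rfl | rfl | rfl | rfl | rfl | rfl | rfl | rfl | rfl | rfl | rfl
    · exact he
    · exact h1
    · exact h2
    · exact h3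
    · exact h4
    · exact hb.tch (h.cB j)
    · exact h.adj _ _
    · exact h.adj _ _
    · exact h.adj _ _
    · exact h.adj _ _
    · exact h.adj _ _
    · exact h.adj _ _

theorem beta {U : Finset V} (h5 : ¬ K5 G) {A B : Fin 3 → Finset V} (h : K33 G U A B)
    {j : Fin 3} {Y Z : Finset V} (hb : Bip G (B j) Y Z) (hY : Two G A Y) (hZ : Two G A Z) :
    Ind G B := by
  intro i k hik ht
  apply h5
  obtain ⟨x, y, z, hxy, hxz, hyz, t1, t2, t3, t4⟩ := two_pair h hb hY hZ
  -- a set `B l` with `l ≠ j` that touches `B j`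
  have key : ∀ l : Fin 3, l ≠ j → Tch G (B l) (B j) → K5 G := by
    intro l hl hlj
    obtain ⟨m, hmj, hml⟩ := BetaAux.third j l hl
    rcases hb.tch_iff.1 hlj with hc | hc
    · exact BetaAux.core h hb hl hmj hml.symm hxy hxz hyz t1 t2 t3 t4 (5, 3) hc
        ![(1, 1), (3, 3), (5, 5), (0, 6), (2, 4)] (by decide)
    · exact BetaAux.core h hb hl hmj hml.symm hxy hxz hyz t1 t2 t3 t4 (5, 4) hc
        ![(1, 1), (4, 4), (5, 5), (2, 6), (0, 3)] (by decide)
  by_cases hi : i = j
  · subst hi
    exact key k (Ne.symm hik) ht.symm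
  by_cases hk : k = j
  · subst hk
    exact key i hi ht
  exact BetaAux.core h hb hi hk hik hxy hxz hyz t1 t2 t3 t4 (5, 6) ht
    ![(1, 1), (5, 5), (6, 6), (0, 3), (2, 4)] (by decide)

end K5W
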