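import Pool.Agent.Lib.P512.ConnB

/-!
# K5W.Defs: minor models as partitions of a vertex set into connected sets

`U` is a finite vertex set, all sets are finite sets of vertices, connectivity is `P512.Conn`
(cut form).  Everything is relative to an arbitrary graph `G`.
-/

namespace K5W

open Finset P512

variable {V : Type*} [DecidableEq V]

/-- Some edge of `G` joins `S` and `T`. -/
def Tch (G : SimpleGraph V) (S T : Finset V) : Prop := ∃ u ∈ S, ∃ v ∈ T, G.Adj u v

/-- `Y`, `Z` is a partition of `X` into two connected sets. -/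
structure Bip (G : SimpleGraph V) (X Y Z : Finset V) : Prop where
  cY : Conn G Y
  cZ : Conn G Z
  dj : Disjoint Y Z
  un : Y ∪ Z = X

/-- A spanning model of `K_{3,3}` in `U`. -/
structure K33 (G : SimpleGraph V) (U : Finset V) (A B : Fin 3 → Finset V) : Prop where
  cA : ∀ i, Conn G (A i)
  cB : ∀ j, Conn G (B j)
  dA : ∀ i k, i ≠ k → Disjoint (A i) (A k)
  dB : ∀ j l, j ≠ l → Disjoint (B j) (B l)
  dAB : ∀ i j, Disjoint (A i) (B j)
  adj : ∀ i j, Tch G (A i) (B j)
  cov : ∀ v, v ∈ U ↔ (∃ i, v ∈ A i) ∨ ∃ j, v ∈ B j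

/-- No edges between different members of the family. -/
def Ind (G : SimpleGraph V) (A : Fin 3 → Finset V) : Prop := ∀ i k, i ≠ k → ¬ Tch G (A i) (A k)

/-- At least two members of the family touch `S`. -/
def Two (G : SimpleGraph V) (A : Fin 3 → Finset V) (S : Finset V) : Prop :=
  ∃ i k, i ≠ k ∧ Tch G (A i) S ∧ Tch G (A k) S

/-- The total size of a family. -/
def sz (A : Fin 3 → Finset V) : ℕ := ∑ i, (A i).card

/-- Configuration `C7`: both sides are independent and `B 0` splits into two connected parts each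
of which touches at least two of the sets `A i`. -/
structure C7 (G : SimpleGraph V) (U : Finset V) (A B : Fin 3 → Finset V) (Y Z : Finset V) :
    Prop where
  k : K33 G U A B
  bip : Bip G (B 0) Y Z
  indA : Ind G A
  indB : Ind G B
  twY : Two G A Y
  twZ : Two G A Z

/-- Configuration `T8`: `B 0` is a triangle of three connected sets `Q i`, and `Q i` touches
`P i` only. -/
structure T8 (G : SimpleGraph V) (U : Finset V) (P B Q : Fin 3 → Finset V) : Prop where
  k : K33 G U P B
  cQ : ∀ i, Conn G (Q i)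
  dQ : ∀ i k, i ≠ k → Disjoint (Q i) (Q k)
  uQ : B 0 = Q 0 ∪ Q 1 ∪ Q 2
  tQ : ∀ i k, i ≠ k → Tch G (Q i) (Q k)
  tPQ : ∀ i, Tch G (P i) (Q i)
  nPQ : ∀ i k, i ≠ k → ¬ Tch G (P i) (Q k)
  indP : Ind G P
  indB : Ind G B

/-- `X` is a 3-separator of `U` with at least three components: there are three disjoint nonempty
subsets of `U \ X` that are closed under adjacency in `U \ X`. -/
def Shred (G : SimpleGraph V) (U X : Finset V) : Prop :=
  X ⊆ U ∧ X.card = 3 ∧ ∃ P : Fin 3 → Finset V,
    (∀ i, (P i).Nonempty ∧ P i ⊆ U \ X ∧ ∀ u ∈ P i, ∀ v ∈ U \ X, G.Adj u v → v ∈ P i) ∧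
      ∀ i k, i ≠ k → Disjoint (P i) (P k)

/-- Adjacency in the Wagner graph `V_8`. -/
def v8 (i j : Fin 8) : Bool := decide (j = i + 1 ∨ i = j + 1 ∨ j = i + 4)

/-- A spanning model of `V_8` in `U`. -/
structure M8 (G : SimpleGraph V) (U : Finset V) (X : Fin 8 → Finset V) : Prop where
  conn : ∀ i, Conn G (X i)
  dj : ∀ i j, i ≠ j → Disjoint (X i) (X j)
  adj : ∀ i j, v8 i j = true → Tch G (X i) (X j)
  cov : ∀ v, v ∈ U ↔ ∃ i, v ∈ X i

end K5W
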