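import Pool.Agent.Lib.K5W.Bas

/-!
# K5W.Ext: disjoint connected subsets of a connected set extend to a partition

Proof.  Strong induction on the number of vertices of `U` in no `X i` (generalising `X`).  If there
is no such vertex, take `Y = X`.  Otherwise let `P` be the set of the vertices of `U` in some
`X i` (`U.filter (fun v => ∃ i, v ∈ X i)` or `Finset.univ.biUnion X`).  `P` is nonempty (`ι` is
nonempty and `X i` is nonempty) and `P ≠ U`, so `hU.2 P` gives `u ∈ P`, `v ∈ U \ P` with
`G.Adj u v`.  Let `u ∈ X i` and replace `X i` by `insert v (X i)` (`P512.conn_insert`); `v` is in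
no `X j`, so the sets stay disjoint.  The number of uncovered vertices drops.  The sets only grow,
so `X i ⊆ Y i`.
-/

namespace K5W

open Finset P512

variable {V : Type*} [DecidableEq V] {G : SimpleGraph V}

theorem extend {ι : Type*} [Fintype ι] [DecidableEq ι] [Nonempty ι] {U : Finset V}
    (hU : Conn G U) (X : ι → Finset V) (hX : ∀ i, Conn G (X i))
    (hd : ∀ i j, i ≠ j → Disjoint (X i) (X j)) (hs : ∀ i, X i ⊆ U) :
    ∃ Y : ι → Finset V, (∀ i, X i ⊆ Y i) ∧ (∀ i, Conn G (Y i)) ∧
      (∀ i j, i ≠ j → Disjoint (Y i) (Y j)) ∧ ∀ v, v ∈ U ↔ ∃ i, v ∈ Y i := by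
  induction hn : (U \ univ.biUnion X).card using Nat.strong_induction_on generalizing X with
  | _ n ih =>
    have hPU : univ.biUnion X ⊆ U := Finset.biUnion_subset.mpr fun i _ => hs i
    by_cases hP : univ.biUnion X = U
    · refine ⟨X, fun i => Finset.Subset.refl _, hX, hd, fun v => ?_⟩
      rw [← hP, Finset.mem_biUnion]
      simp
    · have hne : (univ.biUnion X).Nonempty := by
        obtain ⟨i⟩ := ‹Nonempty ι›
        obtain ⟨a, ha⟩ := (hX i).1
        exact ⟨a, Finset.mem_biUnion.mpr ⟨i, Finset.mem_univ _, ha⟩⟩
      obtain ⟨u, hu, v, hvU, hvP, hadj⟩ := hU.2 _ hPU hne hP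
      obtain ⟨i, _, hui⟩ := Finset.mem_biUnion.mp hu
      have hvX : ∀ j, v ∉ X j := fun j hj => hvP (Finset.mem_biUnion.mpr ⟨j, Finset.mem_univ _, hj⟩)
      have hsub : ∀ j, X j ⊆ Function.update X i (insert v (X i)) j := by
        intro j
        by_cases hj : j = i
        · subst hj
          rw [Function.update_self]
          exact Finset.subset_insert _ _
        · rw [Function.update_of_ne hj]
      have hcard : (U \ univ.biUnion (Function.update X i (insert v (X i)))).card < n := by
        rw [← hn]
        refine Finset.card_lt_card ?_
        rw [Finset.ssubset_iff_of_subset]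
        · refine ⟨v, Finset.mem_sdiff.mpr ⟨hvU, hvP⟩, fun hv => ?_⟩
          refine (Finset.mem_sdiff.mp hv).2 (Finset.mem_biUnion.mpr ⟨i, Finset.mem_univ _, ?_⟩)
          rw [Function.update_self]
          exact Finset.mem_insert_self _ _
        · refine Finset.sdiff_subset_sdiff (Finset.Subset.refl _) ?_
          exact Finset.biUnion_subset.mpr fun j hj =>
            (hsub j).trans (Finset.subset_biUnion_of_mem (Function.update X i (insert v (X i))) hj)
      obtain ⟨Y, h1, h2, h3, h4⟩ := ih _ hcard (Function.update X i (insert v (X i)))
        (fun j => by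
          by_cases hj : j = i
          · subst hj
            rw [Function.update_self]
            exact conn_insert (hX j) ⟨u, hui, hadj⟩
          · rw [Function.update_of_ne hj]
            exact hX j)
        (fun j k hjk => by
          by_cases hj : j = i
          · subst hj
            rw [Function.update_self, Function.update_of_ne (Ne.symm hjk)]
            exact Finset.disjoint_insert_left.mpr ⟨hvX k, hd j k hjk⟩
          · rw [Function.update_of_ne hj]
            by_cases hk : k = i
            · subst hk
              rw [Function.update_self]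
              exact Finset.disjoint_insert_right.mpr ⟨hvX j, hd j k hjk⟩
            · rw [Function.update_of_ne hk]
              exact hd j k hjk)
        (fun j => by
          by_cases hj : j = i
          · subst hj
            rw [Function.update_self]
            exact Finset.insert_subset hvU (hs j)
          · rw [Function.update_of_ne hj]
            exact hs j)
        rfl
      exact ⟨Y, fun j => (hsub j).trans (h1 j), h2, h3, h4⟩

end K5W
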