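import Pool.Agent.Lib.K5W.Bas

/-!
# K5W.K5q: `K_5` models from families of connected sets
-/

namespace K5W

open Finset P512

variable {V : Type*} [DecidableEq V] {G : SimpleGraph V}

/-- The pairs `p i` of indices (with `p i = (a, a)` for a single index) are disjoint, connected and
pairwise adjacent for the relation `R`. -/
def Good {n : ℕ} (R : Fin n → Fin n → Bool) (p : Fin 5 → Fin n × Fin n) : Prop :=
  (∀ i, (p i).1 = (p i).2 ∨ R (p i).1 (p i).2 = true) ∧
  (∀ i j, i < j → (p i).1 ≠ (p j).1 ∧ (p i).1 ≠ (p j).2 ∧ (p i).2 ≠ (p j).1 ∧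
    (p i).2 ≠ (p j).2) ∧
  ∀ i j, i < j → R (p i).1 (p j).1 = true ∨ R (p i).1 (p j).2 = true ∨
    R (p i).2 (p j).1 = true ∨ R (p i).2 (p j).2 = true ∨
    R (p j).1 (p i).1 = true ∨ R (p j).1 (p i).2 = true ∨
    R (p j).2 (p i).1 = true ∨ R (p j).2 (p i).2 = true

instance {n : ℕ} (R : Fin n → Fin n → Bool) (p : Fin 5 → Fin n × Fin n) : Decidable (Good R p) := by
  unfold Good
  infer_instance

theorem k5_of (S : Fin 5 → Finset V) (hc : ∀ i, Conn G (S i))
    (hd : ∀ i j, i < j → Disjoint (S i) (S j)) (ht : ∀ i j, i < j → Tch G (S i) (S j)) :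
    K5 G := by
  refine ⟨S, hc, fun i j hij => ?_, fun i j hij => ?_⟩
  · rcases lt_or_gt_of_ne hij with h | h
    · exact hd i j h
    · exact (hd j i h).symm
  · rcases lt_or_gt_of_ne hij with h | h
    · exact ht i j h
    · exact (ht j i h).symm

/-- `K_5` from a quotient of a family of connected sets with classes of size at most two. -/
theorem k5_q {n : ℕ} (S : Fin n → Finset V) (hc : ∀ i, Conn G (S i))
    (hd : ∀ i j, i ≠ j → Disjoint (S i) (S j)) (R : Fin n → Fin n → Bool)
    (hR : ∀ a b, R a b = true → Tch G (S a) (S b)) (p : Fin 5 → Fin n × Fin n)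
    (h : Good R p) : K5 G := by
  obtain ⟨h1, h2, h3⟩ := h
  refine k5_of (fun i => S (p i).1 ∪ S (p i).2) (fun i => ?_) (fun i j hij => ?_)
    (fun i j hij => ?_)
  · rcases h1 i with h | h
    · simp only [h, Finset.union_self]
      exact hc _
    · exact conn_un (hc _) (hc _) (hR _ _ h)
  · obtain ⟨a, b, c, d⟩ := h2 i j hij
    simp only [Finset.disjoint_union_left, Finset.disjoint_union_right]
    exact ⟨⟨hd _ _ a, hd _ _ c⟩, hd _ _ b, hd _ _ d⟩
  · simp only [tch_union_left, tch_union_right]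
    rcases h3 i j hij with h | h | h | h | h | h | h | h
    · exact Or.inl (Or.inl (hR _ _ h))
    · exact Or.inr (Or.inl (hR _ _ h))
    · exact Or.inl (Or.inr (hR _ _ h))
    · exact Or.inr (Or.inr (hR _ _ h))
    · exact Or.inl (Or.inl (hR _ _ h).symm)
    · exact Or.inl (Or.inr (hR _ _ h).symm)
    · exact Or.inr (Or.inl (hR _ _ h).symm)
    · exact Or.inr (Or.inr (hR _ _ h).symm)

/-- The adjacency list `L` as a relation. -/
def rel {n : ℕ} (L : List (Fin n × Fin n)) (a b : Fin n) : Bool := decide ((a, b) ∈ L)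

theorem rel_tch {n : ℕ} {S : Fin n → Finset V} {L : List (Fin n × Fin n)}
    (h : ∀ e ∈ L, Tch G (S e.1) (S e.2)) : ∀ a b, rel L a b = true → Tch G (S a) (S b) := by
  intro a b hab
  exact h (a, b) (by simpa [rel] using hab)

end K5W
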