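import Pool.Agent.Lib.K5W.K5q

/-!
# K5W.Mv: first moves on a spanning `K_{3,3}` model

`K33.perm`: relabel both sides.

`k5a`: let `m` be the third index besides `i, k` and `n` the third index besides `j, l`.  The sets
`A i, A k, B j, B l, A m ∪ B n` are connected, disjoint and pairwise touching: `k5_of`.

`mv`: the move of `Z` from `B j` to `A i`.  `A i ∪ Z` is connected (`conn_un`), `Y` is connected;
`Y` touches `A k` for `k ≠ i` by hypothesis and touches `A i ∪ Z` because `Y` touches `Z`
(`Bip.tch`).  All other adjacencies are inherited.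

`shred_of`: `X = {r 0, r 1, r 2}` and the three closed sets are `B 0, B 1, B 2`.  `X.card = 3` since
the `A i` are disjoint; `B j ⊆ U \ X`; if `u ∈ B j`, `v ∈ U \ X` are adjacent then `v` is in some
`B l` (then `l = j` by `hI`) or in some `A i` (then `v ≠ r i` and `hn` gives a contradiction).
-/

namespace K5W

open Finset P512

variable {V : Type*} [DecidableEq V] {G : SimpleGraph V}

theorem MvAux.third : ∀ i k : Fin 3, i ≠ k → ∃ m, m ≠ i ∧ m ≠ k := by decide

theorem MvAux.five {P : Finset V → Finset V → Prop} {a b c d e : Finset V} (hab : P a b)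
    (hac : P a c) (had : P a d) (hae : P a e) (hbc : P b c) (hbd : P b d) (hbe : P b e)
    (hcd : P c d) (hce : P c e) (hde : P d e) :
    ∀ i j : Fin 5, i < j → P (![a, b, c, d, e] i) (![a, b, c, d, e] j) := by
  intro i j hij
  fin_cases i <;> fin_cases j <;> first
    | exact absurd hij (by decide)
    | exact hab | exact hac | exact had | exact hae | exact hbc | exact hbd | exact hbe
    | exact hcd | exact hce | exact hde

theorem K33.perm {U : Finset V} {A B : Fin 3 → Finset V} (h : K33 G U A B)
    (σ τ : Equiv.Perm (Fin 3)) : K33 G U (fun i => A (σ i)) (fun j => B (τ j)) := by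
  refine ⟨fun i => h.cA _, fun j => h.cB _, fun i k hik => h.dA _ _ (fun he => hik (σ.injective he)),
    fun j l hjl => h.dB _ _ (fun he => hjl (τ.injective he)), fun i j => h.dAB _ _,
    fun i j => h.adj _ _, fun v => ?_⟩
  rw [h.cov v]
  constructor
  · rintro (⟨i, hi⟩ | ⟨j, hj⟩)
    · exact Or.inl ⟨σ.symm i, by simpa using hi⟩
    · exact Or.inr ⟨τ.symm j, by simpa using hj⟩
  · rintro (⟨i, hi⟩ | ⟨j, hj⟩)
    · exact Or.inl ⟨_, hi⟩
    · exact Or.inr ⟨_, hj⟩

theorem k5a {U : Finset V} {A B : Fin 3 → Finset V} (h : K33 G U A B) {i k j l : Fin 3}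
    (hik : i ≠ k) (hjl : j ≠ l) (hA : Tch G (A i) (A k)) (hB : Tch G (B j) (B l)) : K5 G := by
  obtain ⟨m, hmi, hmk⟩ := MvAux.third i k hik
  obtain ⟨n, hnj, hnl⟩ := MvAux.third j l hjl
  refine k5_of ![A i, A k, B j, B l, A m ∪ B n] ?_ ?_ ?_
  · intro x
    fin_cases x
    · exact h.cA i
    · exact h.cA k
    · exact h.cB j
    · exact h.cB l
    · exact conn_un (h.cA m) (h.cB n) (h.adj m n)
  · refine MvAux.five (P := fun S T => Disjoint S T) (h.dA _ _ hik) (h.dAB _ _) (h.dAB _ _) ?_
      (h.dAB _ _) (h.dAB _ _) ?_ (h.dB _ _ hjl) ?_ ?_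
    · exact Finset.disjoint_union_right.2 ⟨h.dA _ _ hmi.symm, h.dAB _ _⟩
    · exact Finset.disjoint_union_right.2 ⟨h.dA _ _ hmk.symm, h.dAB _ _⟩
    · exact Finset.disjoint_union_right.2 ⟨(h.dAB _ _).symm, h.dB _ _ hnj.symm⟩
    · exact Finset.disjoint_union_right.2 ⟨(h.dAB _ _).symm, h.dB _ _ hnl.symm⟩
  · refine MvAux.five (P := fun S T => Tch G S T) hA (h.adj _ _) (h.adj _ _) ?_
      (h.adj _ _) (h.adj _ _) ?_ hB ?_ ?_
    · exact tch_union_right.2 (Or.inr (h.adj _ _))
    · exact tch_union_right.2 (Or.inr (h.adj _ _))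
    · exact tch_union_right.2 (Or.inl (h.adj _ _).symm)
    · exact tch_union_right.2 (Or.inl (h.adj _ _).symm)

theorem mv {U : Finset V} {A B : Fin 3 → Finset V} (h : K33 G U A B) {i j : Fin 3}
    {Y Z : Finset V} (hb : Bip G (B j) Y Z) (hZ : Tch G (A i) Z)
    (hY : ∀ k, k ≠ i → Tch G (A k) Y) :
    K33 G U (Function.update A i (A i ∪ Z)) (Function.update B j Y) := by
  have eA : Function.update A i (A i ∪ Z) i = A i ∪ Z := Function.update_self _ _ _
  have nA : ∀ k, k ≠ i → Function.update A i (A i ∪ Z) k = A k := fun k hk =>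
    Function.update_of_ne hk _ _
  have eB : Function.update B j Y j = Y := Function.update_self _ _ _
  have nB : ∀ l, l ≠ j → Function.update B j Y l = B l := fun l hl =>
    Function.update_of_ne hl _ _
  refine ⟨?_, ?_, ?_, ?_, ?_, ?_, ?_⟩
  · intro k
    by_cases hk : k = i
    · rw [hk, eA]
      exact conn_un (h.cA i) hb.cZ hZ
    · rw [nA k hk]
      exact h.cA k
  · intro l
    by_cases hl : l = j
    · rw [hl, eB]
      exact hb.cY
    · rw [nB l hl]
      exact h.cB l
  · intro a b hab
    by_cases ha : a = i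
    · have hbi : b ≠ i := fun hbi => hab (ha.trans hbi.symm)
      rw [ha, eA, nA b hbi]
      exact Finset.disjoint_union_left.2 ⟨h.dA i b (fun he => hbi he.symm),
        (Finset.disjoint_of_subset_right hb.subZ (h.dAB b j)).symm⟩
    · by_cases hbi : b = i
      · rw [hbi, eA, nA a ha]
        exact Finset.disjoint_union_right.2 ⟨h.dA a i ha,
          Finset.disjoint_of_subset_right hb.subZ (h.dAB a j)⟩
      · rw [nA a ha, nA b hbi]
        exact h.dA a b hab
  · intro a b hab
    by_cases ha : a = j
    · have hbi : b ≠ j := fun hbi => hab (ha.trans hbi.symm)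
      rw [ha, eB, nB b hbi]
      exact Finset.disjoint_of_subset_left hb.subY (h.dB j b (fun he => hbi he.symm))
    · by_cases hbi : b = j
      · rw [hbi, eB, nB a ha]
        exact Finset.disjoint_of_subset_right hb.subY (h.dB a j ha)
      · rw [nB a ha, nB b hbi]
        exact h.dB a b hab
  · intro k l
    by_cases hk : k = i
    · by_cases hl : l = j
      · rw [hk, hl, eA, eB]
        exact Finset.disjoint_union_left.2
          ⟨Finset.disjoint_of_subset_right hb.subY (h.dAB i j), hb.dj.symm⟩
      · rw [hk, eA, nB l hl]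
        exact Finset.disjoint_union_left.2
          ⟨h.dAB i l, Finset.disjoint_of_subset_left hb.subZ (h.dB j l (fun he => hl he.symm))⟩
    · by_cases hl : l = j
      · rw [hl, eB, nA k hk]
        exact Finset.disjoint_of_subset_right hb.subY (h.dAB k j)
      · rw [nA k hk, nB l hl]
        exact h.dAB k l
  · intro k l
    by_cases hk : k = i
    · by_cases hl : l = j
      · rw [hk, hl, eA, eB]
        exact tch_union_left.2 (Or.inr (hb.tch (h.cB j)).symm)
      · rw [hk, eA, nB l hl]
        exact tch_union_left.2 (Or.inl (h.adj i l))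
    · by_cases hl : l = j
      · rw [hl, eB, nA k hk]
        exact hY k hk
      · rw [nA k hk, nB l hl]
        exact h.adj k l
  · intro v
    rw [h.cov v]
    constructor
    · rintro (⟨k, hk⟩ | ⟨l, hl⟩)
      · left
        refine ⟨k, ?_⟩
        by_cases hki : k = i
        · rw [hki, eA]
          rw [hki] at hk
          exact Finset.mem_union_left _ hk
        · rw [nA k hki]
          exact hk
      · by_cases hlj : l = j
        · rw [hlj] at hl
          rcases hb.mem hl with hv | hv
          · exact Or.inr ⟨j, by rw [eB]; exact hv⟩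
          · exact Or.inl ⟨i, by rw [eA]; exact Finset.mem_union_right _ hv⟩
        · exact Or.inr ⟨l, by rw [nB l hlj]; exact hl⟩
    · rintro (⟨k, hk⟩ | ⟨l, hl⟩)
      · by_cases hki : k = i
        · rw [hki, eA] at hk
          rcases Finset.mem_union.1 hk with hv | hv
          · exact Or.inl ⟨i, hv⟩
          · exact Or.inr ⟨j, hb.subZ hv⟩
        · rw [nA k hki] at hk
          exact Or.inl ⟨k, hk⟩
      · by_cases hlj : l = j
        · rw [hlj, eB] at hl
          exact Or.inr ⟨j, hb.subY hl⟩
        · rw [nB l hlj] at hl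
          exact Or.inr ⟨l, hl⟩

theorem sz_update_lt {A : Fin 3 → Finset V} {i : Fin 3} {Y Z : Finset V}
    (h : Bip G (A i) Y Z) : sz (Function.update A i Y) < sz A := by
  have hlt : Y.card < (A i).card := by
    rw [h.card]
    have := Finset.card_pos.2 h.cZ.1
    omega
  unfold sz
  refine Finset.sum_lt_sum (fun k _ => ?_) ⟨i, Finset.mem_univ _, ?_⟩
  · by_cases hk : k = i
    · rw [hk, Function.update_self]
      exact hlt.le
    · rw [Function.update_of_ne hk]
  · rw [Function.update_self]
    exact hlt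

theorem shred_of {U : Finset V} {A B : Fin 3 → Finset V} (h : K33 G U A B) (hI : Ind G B)
    {r : Fin 3 → V} (hr : ∀ i, r i ∈ A i)
    (hn : ∀ i, ∀ v ∈ A i, v ≠ r i → ∀ j, ¬ Tch G (B j) {v}) : ∃ X, Shred G U X := by
  have hinj : Function.Injective r := by
    intro a b hab
    by_contra hne
    have h1 := Finset.disjoint_left.1 (h.dA a b hne) (hr a)
    rw [hab] at h1
    exact h1 (hr b)
  refine ⟨Finset.univ.image r, ?_, ?_, B, ?_, fun i k hik => h.dB i k hik⟩
  · intro v hv
    obtain ⟨i, -, rfl⟩ := Finset.mem_image.1 hv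
    exact (h.cov _).2 (Or.inl ⟨i, hr i⟩)
  · rw [Finset.card_image_of_injective _ hinj, Finset.card_univ, Fintype.card_fin]
  · intro i
    refine ⟨(h.cB i).1, ?_, ?_⟩
    · intro v hv
      rw [Finset.mem_sdiff]
      refine ⟨(h.cov _).2 (Or.inr ⟨i, hv⟩), fun hX => ?_⟩
      obtain ⟨k, -, rfl⟩ := Finset.mem_image.1 hX
      exact Finset.disjoint_left.1 (h.dAB k i) (hr k) hv
    · intro u hu v hv huv
      rw [Finset.mem_sdiff] at hv
      rcases (h.cov v).1 hv.1 with ⟨k, hk⟩ | ⟨l, hl⟩
      · exfalso
        refine hn k v hk (fun he => hv.2 ?_) i ⟨u, hu, v, Finset.mem_singleton_self v, huv⟩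
        rw [he]
        exact Finset.mem_image_of_mem r (Finset.mem_univ k)
      · by_cases hli : l = i
        · rw [← hli]; exact hl
        · exact absurd ⟨u, hu, v, hl, huv⟩ (hI i l (fun he => hli he.symm))

end K5W
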