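import Pool.Agent.Lib.K5W.Shrink

/-!
# K5W.Seven: the first seven branch sets can be made single vertices

`seven`: induction on `k ≤ 7` in the form: for every `k ≤ 7` there is an `M8` model with
`#(X i) = 1` for all `i < k` (`k : ℕ`, `i.val < k`); in the step choose among those models one with
`#(X k)` minimal (or strong induction on `#(X k)`) and apply `shrink` (branch sets are nonempty, so
`#(X k) ≠ 1` means `2 ≤ #(X k)`).
-/

namespace K5W

open Finset P512

variable {V : Type*} [DecidableEq V] {G : SimpleGraph V}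

namespace SevenAux

theorem step {U : Finset V} (h3 : Thr G U) (h5 : ¬ K5 G) (k : ℕ) (hk : k < 7) :
    ∀ n : ℕ, ∀ X : Fin 8 → Finset V, M8 G U X → (∀ i : Fin 8, i.val < k → (X i).card = 1) →
      (X ⟨k, by omega⟩).card = n →
      ∃ X', M8 G U X' ∧ ∀ i : Fin 8, i.val < k + 1 → (X' i).card = 1 := by
  intro n
  induction n using Nat.strong_induction_on with
  | _ n ih =>
    intro X hX h1 hn
    have hpos : 0 < (X ⟨k, by omega⟩).card := Finset.card_pos.2 (hX.conn _).1
    by_cases h2 : (X ⟨k, by omega⟩).card = 1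
    · refine ⟨X, hX, fun i hi => ?_⟩
      rcases Nat.lt_succ_iff_lt_or_eq.1 hi with h | h
      · exact h1 i h
      · have : i = ⟨k, by omega⟩ := Fin.ext h
        rw [this]
        exact h2
    · obtain ⟨X', hX', he, hlt⟩ := shrink h3 h5 hX (k := ⟨k, by omega⟩)
        (by rw [Fin.lt_def]; exact hk) (fun i hi => h1 i (by rw [Fin.lt_def] at hi; exact hi))
        (by omega)
      refine ih _ (by omega) X' hX' (fun i hi => ?_) rfl
      rw [he i (by rw [Fin.lt_def]; exact hi)]
      exact h1 i hi

end SevenAux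

theorem seven {U : Finset V} (h3 : Thr G U) (h5 : ¬ K5 G) {X : Fin 8 → Finset V}
    (h : M8 G U X) : ∃ X', M8 G U X' ∧ ∀ i, i < 7 → (X' i).card = 1 := by
  have key : ∀ k : ℕ, k ≤ 7 → ∃ X', M8 G U X' ∧ ∀ i : Fin 8, i.val < k → (X' i).card = 1 := by
    intro k
    induction k with
    | zero => exact fun _ => ⟨X, h, fun i hi => absurd hi (Nat.not_lt_zero _)⟩
    | succ k ih =>
      intro hk
      obtain ⟨X1, hX1, h1⟩ := ih (by omega)
      exact SevenAux.step h3 h5 k (by omega) _ X1 hX1 h1 rfl
  obtain ⟨X', hX', h1⟩ := key 7 le_rfl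
  exact ⟨X', hX', fun i hi => h1 i (by rw [Fin.lt_def] at hi; exact hi)⟩

end K5W
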