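import Pool.Agent.Lib.K5W.Thr
import Pool.Agent.Lib.K5W.M8s

/-!
# K5W.Shrink: in a 3-connected graph without `K_5` minor the first seven branch sets of a `V_8`
model can be made single vertices

`shrink`.  Suppose there is no such `X'`.  The high neighbours of `k` are the `h > k` with
`v8 k h = true` (`k + 1` is one of them as `k < 7`), the low ones are the `l < k` with
`v8 k l = true`; there are three neighbours in all, so at most two low ones; the low `X l` are
single vertices.
(1) Let `Bip G (X k) Y Z`.  Not both parts touch two neighbours (`split'`).  Say `Z` touches at most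
    one neighbour (the other case is `hb.symm`).  Then `Z` touches no high neighbour: if it touched
    the high neighbour `j`, it would touch no other neighbour and `M8.move` would give
    `X' = update (update X k Y) j (X j ∪ Z)` with `X' i = X i` for `i < k` and
    `#Y < #(X k)`.
(2) `sink` with `p v := ∀ h, k < h → v8 k h = true → ¬ Tch G (X h) {v}` gives `r ∈ X k` such that no
    `v ∈ X k`, `v ≠ r` touches a high neighbour.
(3) Take `D` = the component (`exists_comp`) of some vertex in `(X k).erase r` (nonempty since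
    `2 ≤ #(X k)`), and `E = X k \ D`, `Bip G (X k) D E` by `bip_comp`; `r ∈ E`.  All neighbours of `D`
    in `U` are in `D`, or equal to `r`, or in a low `X l` (`nbr`).
(4) If `D` touches at most one low neighbour: `Thr.sep` with `S = {r}` or `S = {r} ∪ X l` (`#S ≤ 2`)
    and `w` in `X (k + 1)` gives a contradiction.
(5) So `D` touches two low neighbours `a ≠ b`, and the third neighbour is `k + 1`.  `E` touches
    `X (k + 1)` (since `X k` does and `D` does not).  If `E` touches `X a` or `X b`, `split'` gives `K5`.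
    Otherwise `M8.move` (for `Bip G (X k) D E`, `j = k + 1`) gives
    `X' = update (update X k D) (k + 1) (X (k + 1) ∪ E)`, `#D < #(X k)`: contradiction.
-/

namespace K5W

open Finset P512

variable {V : Type*} [DecidableEq V] {G : SimpleGraph V}

namespace ShrinkAux

theorem succ_nb : ∀ k : Fin 8, k < 7 → v8 k (k + 1) = true ∧ k < k + 1 := by decide

theorem v8_ne' : ∀ i j : Fin 8, v8 i j = true → i ≠ j := by decide

theorem mvk {U : Finset V} {X : Fin 8 → Finset V} (h : M8 G U X) {k : Fin 8}
    (hcon : ¬ ∃ X', M8 G U X' ∧ (∀ i, i < k → X' i = X i) ∧ (X' k).card < (X k).card)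
    {Y Z : Finset V} (hb : Bip G (X k) Y Z) {j : Fin 8} (hkj : k < j) (hv : v8 k j = true)
    (hZ : Tch G (X j) Z) : ∃ c, c ≠ j ∧ v8 k c = true ∧ Tch G (X c) Z := by
  by_contra hn
  push Not at hn
  refine hcon ⟨_, M8.move h hb hv hZ (fun c hc hcj => hn c hcj hc), fun i hi => ?_, ?_⟩
  · rw [Function.update_of_ne (hi.trans hkj).ne, Function.update_of_ne hi.ne]
  · rw [Function.update_of_ne hkj.ne, Function.update_self, hb.card]
    have := hb.cZ.1.card_pos
    omega

end ShrinkAux

open ShrinkAux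

theorem shrink {U : Finset V} (h3 : Thr G U) (h5 : ¬ K5 G) {X : Fin 8 → Finset V}
    (h : M8 G U X) {k : Fin 8} (hk : k < 7) (h1 : ∀ i, i < k → (X i).card = 1)
    (h2 : 2 ≤ (X k).card) :
    ∃ X', M8 G U X' ∧ (∀ i, i < k → X' i = X i) ∧ (X' k).card < (X k).card := by
  by_contra hcon
  -- (1)
  have step1 : ∀ Y Z, Bip G (X k) Y Z →
      (∀ v ∈ Y, ∀ j, k < j → v8 k j = true → ¬ Tch G (X j) {v}) ∨
        ∀ v ∈ Z, ∀ j, k < j → v8 k j = true → ¬ Tch G (X j) {v} := by
    intro Y Z hb
    by_contra hne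
    push Not at hne
    obtain ⟨⟨y, hy, j1, hj1, hv1, ht1⟩, z, hz, j2, hj2, hv2, ht2⟩ := hne
    have hY := ht1.of_subset_right (Finset.singleton_subset_iff.2 hy)
    have hZ := ht2.of_subset_right (Finset.singleton_subset_iff.2 hz)
    obtain ⟨c, hc, hvc, htc⟩ := mvk h hcon hb hj2 hv2 hZ
    obtain ⟨b, hb', hvb, htb⟩ := mvk h hcon hb.symm hj1 hv1 hY
    exact h5 (split' h hb hv1 hvb hv2 hvc hb'.symm hc.symm hY htb hZ htc)
  -- (2)
  obtain ⟨r, hr, hrv⟩ := sink (h.conn k) (fun v => ∀ j, k < j → v8 k j = true → ¬ Tch G (X j) {v})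
    step1
  -- (3)
  obtain ⟨a, ha⟩ : ((X k).erase r).Nonempty := by
    rw [← Finset.card_pos, Finset.card_erase_of_mem hr]
    omega
  obtain ⟨D, haD, hDX, cD, hDc⟩ := exists_comp (G := G) ha
  have hb : Bip G (X k) D (X k \ D) := bip_comp (h.conn k) hr hDX cD hDc
  have hDhigh : ∀ j, k < j → v8 k j = true → ¬ Tch G (X j) D := by
    rintro j hj hv ⟨u, hu, v, hv', e⟩
    have hv1 := Finset.mem_erase.1 (hDX hv')
    exact hrv v hv1.2 hv1.1 j hj hv ⟨u, hu, v, Finset.mem_singleton_self v, e⟩
  have hDU : D ⊆ U := fun v hv => (h.cov v).2 ⟨k, hb.subY hv⟩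
  have hrD : r ∉ D := fun hd => Finset.notMem_erase r (X k) (hDX hd)
  have hout : ∀ u ∈ D, ∀ v ∈ U, G.Adj u v → v ∈ D ∨ v = r ∨
      ∃ j, j < k ∧ v8 k j = true ∧ v ∈ X j ∧ Tch G (X j) D := by
    intro u hu v hv e
    rcases nbr h5 h (hb.subY hu) hv e with h4 | ⟨j, hj, hvj⟩
    · by_cases hvr : v = r
      · exact Or.inr (Or.inl hvr)
      · exact Or.inl (hDc u hu v (Finset.mem_erase.2 ⟨hvr, h4⟩) e)
    · have ht : Tch G (X j) D := ⟨v, hvj, u, hu, e.symm⟩
      rcases lt_trichotomy j k with hjk | hjk | hjk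
      · exact Or.inr (Or.inr ⟨j, hjk, hj, hvj, ht⟩)
      · exact absurd hjk.symm (v8_ne' k j hj)
      · exact absurd ht (hDhigh j hjk hj)
  obtain ⟨hvs, hks⟩ := succ_nb k hk
  obtain ⟨w, hw⟩ := (h.conn (k + 1)).1
  have hwU : w ∈ U := (h.cov w).2 ⟨_, hw⟩
  have hwk : w ∉ X k := fun hc => Finset.disjoint_left.1 (h.dj _ _ hks.ne) hc hw
  have hwD : w ∉ D := fun hc => hwk (hb.subY hc)
  have hwr : w ≠ r := fun hc => hwk (by rw [hc]; exact hr)
  -- (4), (5)
  by_cases htwo : ∃ a b, a ≠ b ∧ (a < k ∧ v8 k a = true ∧ Tch G (X a) D) ∧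
      (b < k ∧ v8 k b = true ∧ Tch G (X b) D)
  · obtain ⟨a, b, hab, ⟨hak, hva, hta⟩, hbk, hvb, htb⟩ := htwo
    have hE : Tch G (X (k + 1)) (X k \ D) := by
      rcases hb.tch_iff.1 (h.adj k (k + 1) hvs).symm with h4 | h4
      · exact absurd h4 (hDhigh _ hks hvs)
      · exact h4
    obtain ⟨c, hc, hvc, htc⟩ := mvk h hcon hb hks hvs hE
    exact h5 (split' h hb hva hvb hvs hvc hab hc.symm hta htb hE htc)
  · push Not at htwo
    by_cases hone : ∃ l, l < k ∧ v8 k l = true ∧ Tch G (X l) D
    · obtain ⟨l, hlk, hvl, htl⟩ := hone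
      refine h3.sep (D := D) (S := insert r (X l)) ?_ cD.1 hDU ?_ ?_ hwU hwD ?_
      · refine (Finset.card_insert_le _ _).trans ?_
        rw [h1 l hlk]
      · rw [Finset.disjoint_insert_right]
        exact ⟨hrD, Finset.disjoint_of_subset_left hb.subY (h.dj _ _ hlk.ne')⟩
      · intro u hu v hv e
        rcases hout u hu v hv e with h4 | h4 | ⟨j, hjk, hvj, hj, htj⟩
        · exact Or.inl h4
        · exact Or.inr (Finset.mem_insert.2 (Or.inl h4))
        · have hjl : j = l := by
            by_contra hne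
            exact htwo j l hne ⟨hjk, hvj, htj⟩ hlk hvl htl
          subst hjl
          exact Or.inr (Finset.mem_insert_of_mem hj)
      · intro hc
        rcases Finset.mem_insert.1 hc with h4 | h4
        · exact hwr h4
        · exact Finset.disjoint_left.1 (h.dj _ _ (hlk.trans hks).ne) h4 hw
    · push Not at hone
      refine h3.sep (D := D) (S := {r}) ?_ cD.1 hDU ?_ ?_ hwU hwD ?_
      · simp
      · rw [Finset.disjoint_singleton_right]
        exact hrD
      · intro u hu v hv e
        rcases hout u hu v hv e with h4 | h4 | ⟨j, hjk, hvj, hj, htj⟩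
        · exact Or.inl h4
        · exact Or.inr (Finset.mem_singleton.2 h4)
        · exact absurd htj (hone j hjk hvj)
      · rw [Finset.mem_singleton]
        exact hwr

end K5W
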