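import Pool.Agent.Lib.K5W.Mv

/-!
# K5W.StepA: moves at the configuration `C7`

Both lemmas use `mv` for `h.k.swap` (the set `Q` is moved from `A i` to `B j`), then
`K33.swap`.

`stepA1`.  `K33`: `P` touches `B l` for `l ≠ j` because `A i = P ∪ Q` does and `Q` does not.
`bip`: `B' 0 = B 0` (`j ≠ 0`).  `indA`: `P ⊆ A i`.  `indB`: `Q` touches no `B l`, `l ≠ j`.
`twY`: if `A i` touches `Y` then `P` touches `Y`, because `Q` does not touch `B 0 ⊇ Y`.  Same
for `twZ`.

`stepA0`.  `Q` touches `B 0 = Y ∪ Z` and no other `B l`.  Put `A' = update A i P`,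
`B' = update B 0 (B 0 ∪ Q)`; `K33 G U A' B'`, `Ind G A'`, `Ind G B'` as before, and
`sz A' < sz A` (`sz_update_lt`).  Note that `P` touches `Q` (`Bip.tch`).
(1) If `Q` touches `Y` then `Bip G (B 0 ∪ Q) (Y ∪ Q) Z` and `Two G A' (Y ∪ Q)` holds (`A' i = P`
    touches `Q`, and `Two G A Y` contains an index `k ≠ i` with `A k ~ Y`).  So `C7` for
    `A', B', Y ∪ Q, Z` holds if `Two G A' Z`.  In the same way, if `Q` touches `Z` then `C7` for
    `A', B', Y, Z ∪ Q` holds if `Two G A' Y`.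
(2) `Q` does not touch `Z`: then `Q` touches `Y`, and `Two G A' Z` since `A i ~ Z` implies `P ~ Z`.
    `Q` does not touch `Y`: symmetric.
(3) `Q` touches `Y` and `Z`.  If `P` touches `Z` then `Two G A' Z`.  If `P` touches `Y` then
    `Two G A' Y`.  If two indices `≠ i` touch `Z`, then `Two G A' Z`; if two indices `≠ i` touch `Y`
    then `Two G A' Y`.
(4) Remaining: `P` touches neither `Y` nor `Z`, exactly one `k ≠ i` has `A k ~ Z`, exactly one
    `l ≠ i` has `A l ~ Y`.  Each `A m`, `m ≠ i`, touches `B 0`, so `k ≠ l`.  Then `T8` holds for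
    `P' = ![P, A k, A l]`, `B' = ![B 0 ∪ Q, B 1, B 2]`, `Q' = ![Q, Z, Y]`: `A k ≁ Y`, `A l ≁ Z`,
    `A k, A l ≁ Q` (since `Q ⊆ A i`, `Ind G A`), `Q ~ Z`, `Q ~ Y`, `Y ~ Z` (`h.bip.tch`).
-/

namespace K5W

open Finset P512

variable {V : Type*} [DecidableEq V] {G : SimpleGraph V}

namespace StepAAux

theorem two_mono {A A' : Fin 3 → Finset V} {S : Finset V} (h : Two G A S)
    (hm : ∀ m, Tch G (A m) S → Tch G (A' m) S) : Two G A' S := by
  obtain ⟨i, k, hik, h1, h2⟩ := h
  exact ⟨i, k, hik, hm i h1, hm k h2⟩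

theorem upd_sub {A : Fin 3 → Finset V} {i : Fin 3} {P : Finset V} (hP : P ⊆ A i) (m : Fin 3) :
    Function.update A i P m ⊆ A m := by
  by_cases h : m = i
  · subst h
    rw [Function.update_self]
    exact hP
  · rw [Function.update_of_ne h]

theorem moveK {U : Finset V} {A B : Fin 3 → Finset V} (h : K33 G U A B) {i : Fin 3}
    {P Q : Finset V} (hb : Bip G (A i) P Q) {j : Fin 3}
    (hQ : Tch G (B j) Q) (hn : ∀ l, l ≠ j → ¬ Tch G (B l) Q) :
    K33 G U (Function.update A i P) (Function.update B j (B j ∪ Q)) := by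
  refine (mv h.swap hb hQ (fun k hk => ?_)).swap
  rcases hb.tch_iff.1 (h.adj i k).symm with h1 | h1
  · exact h1
  · exact absurd h1 (hn k hk)

theorem moveInd {B : Fin 3 → Finset V} (h : Ind G B) {Q : Finset V} {j : Fin 3}
    (hn : ∀ l, l ≠ j → ¬ Tch G (B l) Q) : Ind G (Function.update B j (B j ∪ Q)) := by
  intro a b hab ht
  by_cases ha : a = j
  · subst ha
    rw [Function.update_self, Function.update_of_ne (Ne.symm hab)] at ht
    rcases tch_union_left.1 ht with h1 | h1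
    · exact h a b hab h1
    · exact hn b (Ne.symm hab) h1.symm
  · by_cases hb : b = j
    · subst hb
      rw [Function.update_self, Function.update_of_ne ha] at ht
      rcases tch_union_right.1 ht with h1 | h1
      · exact h a b hab h1
      · exact hn a ha h1
    · rw [Function.update_of_ne ha, Function.update_of_ne hb] at ht
      exact h a b hab ht

theorem c7_swap {U : Finset V} {A B : Fin 3 → Finset V} {Y Z : Finset V}
    (h : C7 G U A B Y Z) : C7 G U A B Z Y :=
  ⟨h.k, h.bip.symm, h.indA, h.indB, h.twZ, h.twY⟩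

theorem ne3 {p : Fin 3 → Fin 3 → Prop} (h01 : p 0 1) (h10 : p 1 0) (h02 : p 0 2) (h20 : p 2 0)
    (h12 : p 1 2) (h21 : p 2 1) : ∀ i k, i ≠ k → p i k := by
  intro i k hik
  fin_cases i <;> fin_cases k <;> first | exact absurd rfl hik | assumption

theorem all3 {p : Fin 3 → Prop} (h0 : p 0) (h1 : p 1) (h2 : p 2) : ∀ i, p i := by
  intro i
  fin_cases i <;> assumption

theorem third (i k : Fin 3) : ∃ m, m ≠ i ∧ m ≠ k := by
  revert i k
  decide

/-- if `A'` is `A` with `A i` replaced and at most one `A' m` touches `S`, then exactly one `A k`,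
`k ≠ i`, touches `S` -/
theorem one {A : Fin 3 → Finset V} {S P : Finset V} {i : Fin 3} (h : Two G A S)
    (hn : ¬ Two G (Function.update A i P) S) :
    ¬ Tch G P S ∧ ∃ k, k ≠ i ∧ Tch G (A k) S ∧ ∀ m, m ≠ i → m ≠ k → ¬ Tch G (A m) S := by
  have h2 : ∀ a b, a ≠ i → b ≠ i → a ≠ b → Tch G (A a) S → ¬ Tch G (A b) S := by
    intro a b ha hb hab h1 h2
    refine hn ⟨a, b, hab, ?_, ?_⟩
    · rw [Function.update_of_ne ha]; exact h1
    · rw [Function.update_of_ne hb]; exact h2
  have h3 : ∃ k, k ≠ i ∧ Tch G (A k) S := by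
    obtain ⟨a, b, hab, h1, h2⟩ := h
    by_cases ha : a = i
    · exact ⟨b, fun hb => hab (ha.trans hb.symm), h2⟩
    · exact ⟨a, ha, h1⟩
  obtain ⟨k, hk, hkS⟩ := h3
  refine ⟨fun hP => hn ⟨i, k, hk.symm, ?_, ?_⟩, k, hk, hkS, fun m hm hmk => h2 k m hk hm hmk.symm hkS⟩
  · rw [Function.update_self]; exact hP
  · rw [Function.update_of_ne hk]; exact hkS

/-- the first outcome -/
theorem out {U : Finset V} {A B : Fin 3 → Finset V} {Y Z : Finset V}
    (h : C7 G U A B Y Z) {i : Fin 3} {P Q : Finset V} (hb : Bip G (A i) P Q)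
    (hQ : Tch G (B 0) Q) (hn : ∀ l, l ≠ 0 → ¬ Tch G (B l) Q) (hQY : Tch G Q Y)
    (hZ : Two G (Function.update A i P) Z) :
    C7 G U (Function.update A i P) (Function.update B 0 (B 0 ∪ Q)) (Y ∪ Q) Z := by
  have hdQ : Disjoint Q (B 0) := Disjoint.mono_left hb.subZ (h.k.dAB i 0)
  refine ⟨moveK h.k hb hQ hn, ?_, h.indA.mono (upd_sub hb.subY), moveInd h.indB hn, ?_, hZ⟩
  · rw [Function.update_self]
    refine ⟨conn_un h.bip.cY hb.cZ hQY.symm, h.bip.cZ, ?_, ?_⟩
    · rw [Finset.disjoint_union_left]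
      exact ⟨h.bip.dj, Disjoint.mono_right h.bip.subZ hdQ⟩
    · rw [← h.bip.un, Finset.union_assoc, Finset.union_comm Q Z, ← Finset.union_assoc]
  · have h3 : ∃ k, k ≠ i ∧ Tch G (A k) Y := by
      obtain ⟨a, b, hab, h1, h2⟩ := h.twY
      by_cases ha : a = i
      · exact ⟨b, fun hb => hab (ha.trans hb.symm), h2⟩
      · exact ⟨a, ha, h1⟩
    obtain ⟨k, hk, hkY⟩ := h3
    refine ⟨i, k, hk.symm, ?_, ?_⟩
    · rw [Function.update_self]
      exact (hb.tch (h.k.cA i)).of_subset_right Finset.subset_union_right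
    · rw [Function.update_of_ne hk]
      exact hkY.of_subset_right Finset.subset_union_left

theorem noZ {U : Finset V} {A B : Fin 3 → Finset V} {Y Z : Finset V}
    (h : C7 G U A B Y Z) {i : Fin 3} {P Q : Finset V} (hb : Bip G (A i) P Q)
    (hQZ : ¬ Tch G Q Z) : Two G (Function.update A i P) Z := by
  refine two_mono h.twZ (fun m hm => ?_)
  by_cases hmi : m = i
  · subst hmi
    rw [Function.update_self]
    rcases hb.tch_iff.1 hm.symm with h1 | h1
    · exact h1.symm
    · exact absurd h1.symm hQZ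
  · rw [Function.update_of_ne hmi]
    exact hm

end StepAAux

open StepAAux

theorem stepA1 {U : Finset V} {A B : Fin 3 → Finset V} {Y Z : Finset V}
    (h : C7 G U A B Y Z) {i : Fin 3} {P Q : Finset V} (hb : Bip G (A i) P Q) {j : Fin 3}
    (hj : j ≠ 0) (hQ : Tch G (B j) Q) (hn : ∀ l, l ≠ j → ¬ Tch G (B l) Q) :
    C7 G U (Function.update A i P) (Function.update B j (B j ∪ Q)) Y Z := by
  have key : ∀ S : Finset V, S ⊆ B 0 → Two G A S → Two G (Function.update A i P) S := by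
    intro S hS hS2
    refine two_mono hS2 (fun m hm => ?_)
    by_cases hmi : m = i
    · subst hmi
      rw [Function.update_self]
      rcases hb.tch_iff.1 hm.symm with h1 | h1
      · exact h1.symm
      · exact absurd (h1.mono hS le_rfl) (hn 0 hj.symm)
    · rw [Function.update_of_ne hmi]
      exact hm
  refine ⟨moveK h.k hb hQ hn, ?_, h.indA.mono (upd_sub hb.subY), moveInd h.indB hn,
    key Y h.bip.subY h.twY, key Z h.bip.subZ h.twZ⟩
  rw [Function.update_of_ne hj.symm]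
  exact h.bip

theorem stepA0 {U : Finset V} {A B : Fin 3 → Finset V} {Y Z : Finset V}
    (h : C7 G U A B Y Z) {i : Fin 3} {P Q : Finset V} (hb : Bip G (A i) P Q)
    (hQ : Tch G (B 0) Q) (hn : ∀ l, l ≠ 0 → ¬ Tch G (B l) Q) :
    (∃ A' B' Y' Z', C7 G U A' B' Y' Z' ∧ sz A' < sz A) ∨ ∃ P' B' Q', T8 G U P' B' Q' := by
  by_cases h1 : Tch G Q Y ∧ Two G (Function.update A i P) Z
  · exact Or.inl ⟨_, _, _, _, out h hb hQ hn h1.1 h1.2, sz_update_lt hb⟩
  by_cases h2 : Tch G Q Z ∧ Two G (Function.update A i P) Y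
  · exact Or.inl ⟨_, _, _, _, out (c7_swap h) hb hQ hn h2.1 h2.2, sz_update_lt hb⟩
  have hQYZ := h.bip.tch_iff.1 hQ.symm
  have hQZ : Tch G Q Z := by
    by_contra hc
    exact h1 ⟨hQYZ.resolve_right hc, noZ h hb hc⟩
  have hQY : Tch G Q Y := by
    by_contra hc
    exact h2 ⟨hQYZ.resolve_left hc, noZ (c7_swap h) hb hc⟩
  obtain ⟨hPZ, k, hk, hkZ, hkn⟩ := one h.twZ (fun hc => h1 ⟨hQY, hc⟩)
  obtain ⟨hPY, l, hl, hlY, hln⟩ := one h.twY (fun hc => h2 ⟨hQZ, hc⟩)
  have hkl : k ≠ l := by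
    rintro rfl
    obtain ⟨m, hmi, hmk⟩ := third i k
    rcases h.bip.tch_iff.1 (h.k.adj m 0) with h3 | h3
    · exact hln m hmi hmk h3
    · exact hkn m hmi hmk h3
  have hdQ : Disjoint Q (B 0) := Disjoint.mono_left hb.subZ (h.k.dAB i 0)
  have hinj : Function.Injective (![i, k, l] : Fin 3 → Fin 3) := by
    intro a b hab
    by_contra hne
    revert hab
    exact ne3 (p := fun a b => ¬ (![i, k, l] : Fin 3 → Fin 3) a = (![i, k, l] : Fin 3 → Fin 3) b)
      hk.symm hk hl.symm hl hkl hkl.symm a b hne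
  let σ : Equiv.Perm (Fin 3) := Equiv.ofBijective _ ⟨hinj, Finite.surjective_of_injective hinj⟩
  have hσ0 : σ 0 = i := rfl
  have hσ1 : σ 1 = k := rfl
  have hσ2 : σ 2 = l := rfl
  have hA0 : Function.update A i P (σ 0) = P := by rw [hσ0, Function.update_self]
  have hA1 : Function.update A i P (σ 1) = A k := by rw [hσ1, Function.update_of_ne hk]
  have hA2 : Function.update A i P (σ 2) = A l := by rw [hσ2, Function.update_of_ne hl]
  have hYZ := h.bip.tch (h.k.cB 0)
  have hkQ : ∀ m, m ≠ i → ¬ Tch G (A m) Q := fun m hm ht =>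
    h.indA m i hm (ht.of_subset_right hb.subZ)
  refine Or.inr ⟨fun a => Function.update A i P (σ a), Function.update B 0 (B 0 ∪ Q), ![Q, Z, Y],
    ⟨(moveK h.k hb hQ hn).perm σ 1, ?_, ?_, ?_, ?_, ?_, ?_, ?_, moveInd h.indB hn⟩⟩
  · exact all3 hb.cZ h.bip.cZ h.bip.cY
  · have h01 : Disjoint Q Z := Disjoint.mono_right h.bip.subZ hdQ
    have h02 : Disjoint Q Y := Disjoint.mono_right h.bip.subY hdQ
    exact ne3 h01 h01.symm h02 h02.symm h.bip.dj.symm h.bip.dj
  · rw [Function.update_self, ← h.bip.un]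
    show Y ∪ Z ∪ Q = Q ∪ Z ∪ Y
    rw [Finset.union_comm Y Z, Finset.union_assoc, Finset.union_comm Y Q, ← Finset.union_assoc,
      Finset.union_comm Z Q]
  · exact ne3 hQZ hQZ.symm hQY hQY.symm hYZ.symm hYZ
  · refine all3 ?_ ?_ ?_
    · show Tch G (Function.update A i P (σ 0)) Q
      rw [hA0]; exact hb.tch (h.k.cA i)
    · show Tch G (Function.update A i P (σ 1)) Z
      rw [hA1]; exact hkZ
    · show Tch G (Function.update A i P (σ 2)) Y
      rw [hA2]; exact hlY
  · refine ne3 ?_ ?_ ?_ ?_ ?_ ?_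
    · show ¬ Tch G (Function.update A i P (σ 0)) Z
      rw [hA0]; exact hPZ
    · show ¬ Tch G (Function.update A i P (σ 1)) Q
      rw [hA1]; exact hkQ k hk
    · show ¬ Tch G (Function.update A i P (σ 0)) Y
      rw [hA0]; exact hPY
    · show ¬ Tch G (Function.update A i P (σ 2)) Q
      rw [hA2]; exact hkQ l hl
    · show ¬ Tch G (Function.update A i P (σ 1)) Y
      rw [hA1]; exact hln k hk hkl
    · show ¬ Tch G (Function.update A i P (σ 2)) Z
      rw [hA2]; exact hkn l hl hkl.symm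
  · intro a b hab
    exact (h.indA.mono (upd_sub hb.subY)) (σ a) (σ b) (fun he => hab (σ.injective he))

end K5W
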