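import Pool.Agent.Lib.K5W.Bas

/-!
# K5W.Thr: 3-connectivity in the form `U - u - v` is connected

`Thr.sep`: there is no partition of `U` into `D`, `S`, `C` with `#S ≤ 2`, `D`, `C` nonempty and no
edge between `D` and `C`.  Proof.  Replace `S` by `S ∩ U` (we may assume `S ⊆ U`).  By induction on
`2 - #S` for all `D, C`: if `#S = 2`, `S = {a, b}`, apply `h.2 a b` and `Conn` to the subset `D` of
`(U.erase a).erase b`.  If `#S ≤ 1`, then `#D + #C ≥ 3` (as `4 ≤ #U`), so one of `D`, `C` has two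
elements; move one of its elements to `S` (the statement is symmetric in `D` and `C`; so it is best
to prove first the symmetric auxiliary statement with `C` as a variable:
`U = D ∪ S ∪ C`, pairwise disjoint, `¬ Tch G D C`).
`Thr.conn`: by `Thr.sep` with `S = ∅`: a nonempty `P ⊆ U`, `P ≠ U` with no edge to `U \ P`.
-/

namespace K5W

open Finset P512

variable {V : Type*} [DecidableEq V] {G : SimpleGraph V}

/-- `G` restricted to `U` is 3-connected. -/
def Thr (G : SimpleGraph V) (U : Finset V) : Prop :=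
  4 ≤ U.card ∧ ∀ u v, Conn G ((U.erase u).erase v)

theorem Thr.sep {U : Finset V} (h : Thr G U) {D S : Finset V} (hS : S.card ≤ 2)
    (hD : D.Nonempty) (hDU : D ⊆ U) (hDS : Disjoint D S)
    (hc : ∀ u ∈ D, ∀ v ∈ U, G.Adj u v → v ∈ D ∨ v ∈ S) {w : V} (hw : w ∈ U) (hwD : w ∉ D)
    (hwS : w ∉ S) : False := by
  obtain ⟨d, hd⟩ := hD
  have hdS : d ∉ S := fun h => (Finset.disjoint_left.1 hDS hd) h
  obtain ⟨a, b, hSab, hda, hdb, hwa, hwb⟩ : ∃ a b, (∀ v ∈ S, v = a ∨ v = b) ∧ d ≠ a ∧ d ≠ b ∧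
      w ≠ a ∧ w ≠ b := by
    have h012 : S.card = 0 ∨ S.card = 1 ∨ S.card = 2 := by omega
    rcases h012 with h0 | h0 | h0
    · have hSe : S = ∅ := Finset.card_eq_zero.1 h0
      have h4 := h.1
      obtain ⟨a, ha⟩ : ((U.erase d).erase w).Nonempty := by
        rw [← Finset.card_pos]
        have h1 := Finset.pred_card_le_card_erase (s := U) (a := d)
        have h2 := Finset.pred_card_le_card_erase (s := U.erase d) (a := w)
        omega
      have ha1 := Finset.mem_erase.1 ha
      have ha2 := Finset.mem_erase.1 ha1.2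
      exact ⟨a, a, fun v hv => by simp [hSe] at hv, ha2.1.symm, ha2.1.symm, ha1.1.symm,
        ha1.1.symm⟩
    · obtain ⟨s, rfl⟩ := Finset.card_eq_one.1 h0
      rw [Finset.mem_singleton] at hdS hwS
      exact ⟨s, s, fun v hv => Or.inl (Finset.mem_singleton.1 hv), hdS, hdS, hwS, hwS⟩
    · obtain ⟨a, b, -, rfl⟩ := Finset.card_eq_two.1 h0
      simp only [Finset.mem_insert, Finset.mem_singleton, not_or] at hdS hwS
      exact ⟨a, b, fun v hv => by simpa using hv, hdS.1, hdS.2, hwS.1, hwS.2⟩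
  obtain ⟨u, hu, v, hv, hvn, e⟩ := (h.2 a b).2 ((D.erase a).erase b)
    (Finset.erase_subset_erase _ (Finset.erase_subset_erase _ hDU))
    ⟨d, Finset.mem_erase.2 ⟨hdb, Finset.mem_erase.2 ⟨hda, hd⟩⟩⟩ (fun he => by
      have : w ∈ (U.erase a).erase b := Finset.mem_erase.2 ⟨hwb, Finset.mem_erase.2 ⟨hwa, hw⟩⟩
      rw [← he] at this
      exact hwD (Finset.mem_of_mem_erase (Finset.mem_of_mem_erase this)))
  have hv1 := Finset.mem_erase.1 hv
  have hv2 := Finset.mem_erase.1 hv1.2
  rcases hc u (Finset.mem_of_mem_erase (Finset.mem_of_mem_erase hu)) v hv2.2 e with h1 | h1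
  · exact hvn (Finset.mem_erase.2 ⟨hv1.1, Finset.mem_erase.2 ⟨hv2.1, h1⟩⟩)
  · rcases hSab v h1 with h2 | h2
    · exact hv2.1 h2
    · exact hv1.1 h2

theorem Thr.conn {U : Finset V} (h : Thr G U) : Conn G U := by
  have h4 := h.1
  refine ⟨Finset.card_pos.1 (by omega), fun P hP hne hneq => ?_⟩
  by_contra hcon
  push Not at hcon
  obtain ⟨w, hw, hwP⟩ : ∃ w ∈ U, w ∉ P := by
    by_contra hcon2
    push Not at hcon2
    exact hneq (le_antisymm hP hcon2)
  exact h.sep (D := P) (S := ∅) (by simp) hne hP (Finset.disjoint_empty_right _)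
    (fun u hu v hv e => Or.inl (by
      by_contra hvP
      exact hcon u hu v hv hvP e)) hw hwP (Finset.notMem_empty _)

end K5W
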